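import Mathlib

/-! Project LV: elementary facts on large `T`. -/

open Filter

namespace Q63.LV

theorem ev_cast {P : ℝ → Prop} (h : ∀ᶠ x : ℝ in atTop, P x) : ∀ᶠ T : ℕ in atTop, P (T : ℝ) :=
  tendsto_natCast_atTop_atTop.eventually h

theorem ev_rpow (a b C : ℝ) (h : a < b) : ∀ᶠ T : ℕ in atTop, C * (T : ℝ) ^ a ≤ (T : ℝ) ^ b := by
  apply ev_cast (P := fun x => C * x ^ a ≤ x ^ b)
  have h1 := (tendsto_rpow_atTop (by linarith : 0 < b - a)).eventually_ge_atTop C
  filter_upwards [h1, eventually_gt_atTop 0] with x hx hx0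
  have : x ^ b = x ^ (b - a) * x ^ a := by
    rw [← Real.rpow_add hx0]; congr 1; ring
  rw [this]
  exact mul_le_mul_of_nonneg_right hx (Real.rpow_nonneg hx0.le _)

theorem ev_log (A B c d : ℝ) (hc : 0 < c) (hd : 0 < d) :
    ∀ᶠ T : ℕ in atTop, A + B * Real.log T ≤ c * (T : ℝ) ^ d := by
  apply ev_cast (P := fun x => A + B * Real.log x ≤ c * x ^ d)
  have h1 := (tendsto_rpow_atTop hd).eventually_ge_atTop (2 * A / c)
  have h2 := (isLittleO_log_rpow_atTop hd).bound (c := c / (2 * (|B| + 1))) (by positivity)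
  filter_upwards [h1, h2, eventually_ge_atTop 1] with x hx hx2 hx0
  have h3 : 0 ≤ Real.log x := Real.log_nonneg hx0
  have h4 : 0 ≤ x ^ d := Real.rpow_nonneg (by linarith) _
  rw [Real.norm_of_nonneg h3, Real.norm_of_nonneg h4] at hx2
  have h5 : A ≤ c / 2 * x ^ d := by
    have := mul_le_mul_of_nonneg_left hx (by linarith : 0 ≤ c / 2)
    have e : c / 2 * (2 * A / c) = A := by field_simp
    linarith
  have h6 : B * Real.log x ≤ c / 2 * x ^ d := by
    have hB : B * Real.log x ≤ (|B| + 1) * Real.log x := by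
      apply mul_le_mul_of_nonneg_right _ h3
      linarith [le_abs_self B]
    have h7 := mul_le_mul_of_nonneg_left hx2 (by positivity : 0 ≤ |B| + 1)
    have e : (|B| + 1) * (c / (2 * (|B| + 1)) * x ^ d) = c / 2 * x ^ d := by field_simp
    linarith
  linarith

/-- polynomial times stretched exponential -/
theorem ev_exp (C m c d : ℝ) (hC : 0 < C) (hc : 0 < c) (hd : 0 < d) :
    ∀ᶠ T : ℕ in atTop, C * (T : ℝ) ^ m * Real.exp (-(c * (T : ℝ) ^ d)) ≤ 1 := by
  filter_upwards [ev_log (Real.log C) m c d hc hd, eventually_gt_atTop 0] with T hT hT0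
  have h0 : (0 : ℝ) < T := by exact_mod_cast hT0
  have : C * (T : ℝ) ^ m = Real.exp (Real.log C + m * Real.log T) := by
    rw [Real.exp_add, Real.exp_log hC, Real.rpow_def_of_pos h0]; congr 2; ring
  rw [this, ← Real.exp_add]
  exact Real.exp_le_one_iff.2 (by linarith)

end Q63.LV
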