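import Pool.Agent.Q63.LV.CaseA

/-! Project LV (MP_545af4_pr, helper289), job B1. -/

open Finset Filter

namespace Q63.LV

open Q289.LV

theorem b1 (h : S_Hit) (hr : S_Rev) (hc : S_Car) (hs : S_Slow) : S_B1 := by
  intro κ K hκ
  have F1 := ev_log (2 * Real.log (2 / κ)) 0 1 0.1 (by norm_num) (by norm_num)
  have G1 := ev_rpow 0 0.08 (4 / κ) (by norm_num)
  have G2 := ev_rpow (1 / 30) 0.96 1 (by norm_num)
  have G3 := ev_rpow 0.96 0.98 2 (by norm_num)
  have G4 := ev_rpow 0.92 0.926 (64 / κ) (by norm_num)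
  have G5 := ev_log 1 0.02 (1 / 32) 0.926 (by norm_num) (by norm_num)
  have G6 : ∀ᶠ T : ℕ in atTop, 2 * Real.log (2 / κ) ≤ 0.9 * Real.log T :=
    (((Real.tendsto_log_atTop.comp tendsto_natCast_atTop_atTop).const_mul_atTop
      (by norm_num : (0 : ℝ) < 0.9)).eventually_ge_atTop _)
  obtain ⟨T₀, hT₀⟩ := eventually_atTop.1 (G1.and (G2.and (G3.and (G4.and (G5.and (G6.and
    (eventually_ge_atTop 3)))))))
  refine ⟨T₀, fun T q β x w V φ φ₁ φ₂ hT hB m₂ hm2 hP => ?_⟩
  obtain ⟨g1, g2, g3, g4, g5, g6, g7⟩ := hT₀ T hT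
  have hE := hB.env
  have hw := env_rng hE
  have hx3 : (3 : ℝ) ≤ T := by exact_mod_cast g7
  have hx0 : (0 : ℝ) < T := by linarith
  have hlog : 1 ≤ Real.log T := by
    rw [Real.le_log_iff_exp_le hx0]
    have := Real.exp_one_lt_d9
    linarith
  -- basic lower bound
  have hTp : (T : ℝ) ^ (-0.02 : ℝ) = Real.exp (-(0.02 * Real.log T)) := by
    rw [Real.rpow_def_of_pos hx0]; congr 1; ring
  have hlow : ∀ a b : ℤ, 0 ≤ a → b ≤ m₂ → Real.exp (-(0.02 * Real.log T)) ≤ Hit w b T a := by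
    intro a b ha hb
    rw [← hTp]
    refine hP.trans ((h.h5 w hw m₂ T 0).trans ?_)
    exact (h.h4 w hw b m₂ T 0 hb).trans (h.h3 w hw b T 0 a ha)
  have hsum : ∀ (a b : ℤ) (M : ℝ), 0 ≤ a → a < b → b ≤ m₂ → 0 ≤ M →
      (∀ s : ℕ, 1 ≤ s → s ≤ T → Ex w s (one b) a ≤ M) →
      Real.exp (-(0.02 * Real.log T)) ≤ Real.exp (Real.log T) * M := by
    intro a b M ha hab hb hM hs
    refine (hlow a b ha hb).trans ((h.h6 w hw b T a hab.le).trans ?_)
    rw [sum_range_succ']
    have e0 : Ex w 0 (one b) a = 0 := by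
      have : a ≠ b := by omega
      simp [Ex, one, this]
    rw [e0, add_zero]
    refine (sum_le_sum (g := fun _ => M) fun s hs' => hs (s + 1) (by omega)
      (by have := mem_range.1 hs'; omega)).trans ?_
    rw [sum_const, card_range, nsmul_eq_mul, Real.exp_log hx0]
  have hκ2 : Real.log (2 / κ) = Real.log 2 + Real.log (1 / κ) := by
    rw [show (2 : ℝ) / κ = 2 * (1 / κ) by ring, Real.log_mul (by norm_num) (by positivity)]
  have hl2 : 0 < Real.log 2 := Real.log_pos (by norm_num)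
  refine ⟨?_, ?_, ?_⟩
  · intro a b ha hab hb
    have h1 := hsum a b (2 / κ * Real.exp ((V a - V b) / 2) *
      Real.exp (-((b : ℝ) - a) ^ 2 / (2 * T))) ha hab hb (by positivity) (fun s hs1 hsT => by
        refine (hc κ w V hE s a b hs1).trans ?_
        have : Real.exp (-((b : ℝ) - a) ^ 2 / (2 * s)) ≤ Real.exp (-((b : ℝ) - a) ^ 2 / (2 * T)) := by
          apply Real.exp_le_exp.2
          have h2 : (s : ℝ) ≤ T := by exact_mod_cast hsT
          have h3 : (0 : ℝ) < s := by exact_mod_cast hs1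
          rw [neg_div, neg_div, neg_le_neg_iff]
          apply div_le_div_of_nonneg_left (sq_nonneg _) (by positivity) (by linarith)
        have h2 : 0 < 2 / κ := by positivity
        gcongr)
    have e1 : Real.exp (Real.log T) * (2 / κ * Real.exp ((V a - V b) / 2) *
      Real.exp (-((b : ℝ) - a) ^ 2 / (2 * T))) = Real.exp (Real.log T + Real.log (2 / κ) +
        (V a - V b) / 2 + (-((b : ℝ) - a) ^ 2 / (2 * T))) := by
      rw [Real.exp_add, Real.exp_add, Real.exp_add, Real.exp_log (by positivity : 0 < 2 / κ)]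
      ring
    rw [e1, Real.exp_le_exp] at h1
    have e2 : -((b : ℝ) - a) ^ 2 / (2 * T) = -(((b : ℝ) - a) ^ 2 / T / 2) := by
      field_simp
    rw [e2] at h1
    linarith
  · intro a b ha hab hb
    have h1 := hsum a b (1 / κ * Real.exp (V a - V b)) ha hab hb (by positivity)
      (fun s hs1 hsT => hr κ w V hE s a b)
    have e1 : Real.exp (Real.log T) * (1 / κ * Real.exp (V a - V b)) =
        Real.exp (Real.log T + Real.log (1 / κ) + (V a - V b)) := by
      rw [Real.exp_add, Real.exp_add, Real.exp_log (by positivity : 0 < 1 / κ)]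
      ring
    rw [e1, Real.exp_le_exp] at h1
    linarith
  · intro i0 k k' hi0 hi0m hk1 hk2 hk'1 hk'2
    by_contra hcon
    rw [not_le] at hcon
    have hq1 : (1 : ℝ) ≤ q := by exact_mod_cast hB.q1
    have hq0 : (0 : ℝ) < q := by linarith
    have hqT : (q : ℝ) ≤ (T : ℝ) ^ (1 / 30 : ℝ) := by
      have h1 : ((q : ℝ) ^ 30) ^ (1 / 30 : ℝ) ≤ (T : ℝ) ^ (1 / 30 : ℝ) :=
        Real.rpow_le_rpow (by positivity) hB.qT (by norm_num)
      rw [← Real.rpow_natCast, ← Real.rpow_mul hq0.le] at h1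
      norm_num at h1
      exact_mod_cast h1
    set n : ℕ := ⌊(T : ℝ) ^ (0.96 : ℝ) / (2 * q)⌋₊ with hn
    have hn1 : (n : ℝ) * (2 * q) ≤ (T : ℝ) ^ (0.96 : ℝ) := by
      have := Nat.floor_le (show 0 ≤ (T : ℝ) ^ (0.96 : ℝ) / (2 * q) by positivity)
      rwa [← hn, le_div_iff₀ (by positivity)] at this
    have hn2 : (T : ℝ) ^ (0.96 : ℝ) < (n + 1) * (2 * q) := by
      have := Nat.lt_floor_add_one ((T : ℝ) ^ (0.96 : ℝ) / (2 * q))
      rwa [← hn, div_lt_iff₀ (by positivity)] at this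
    -- positions in the block
    obtain ⟨r, hr1⟩ := Int.eq_ofNat_of_zero_le (by linarith : 0 ≤ k - i0 * q)
    obtain ⟨r', hr'1⟩ := Int.eq_ofNat_of_zero_le (by linarith : 0 ≤ k' - i0 * q)
    have ek : k = i0 * q + r := by linarith
    have ek' : k' = i0 * q + r' := by linarith
    have hrq : r ≤ q := by
      have : (r : ℤ) ≤ q := by linarith
      exact_mod_cast this
    have hr'q : r' ≤ q := by
      have : (r' : ℤ) ≤ q := by linarith
      exact_mod_cast this
    have hβ := hB.β0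
    have hK := hB.K1
    -- shapes of the blocks
    have hshape : ∀ (m : ℕ) (r : ℕ), m ≤ 2 * n + 1 → r ≤ q →
        |(V ((i0 + m) * q + r) - V ((i0 + m) * q)) - (V (i0 * q + r) - V (i0 * q))| ≤ K := by
      intro m r hm hr
      have h1 := hB.shp (i0 * q) m r
      have e1 : i0 * q + (m : ℤ) * q + r = (i0 + m) * q + r := by ring
      have e2 : i0 * q + (m : ℤ) * q = (i0 + m) * q := by ring
      rw [e1, e2] at h1
      refine h1.trans ?_
      have h2 : |((m : ℤ) : ℝ)| = m := by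
        rw [Int.cast_natCast, abs_of_nonneg (Nat.cast_nonneg m)]
      rw [h2]
      have h3 : (m : ℝ) ≤ 2 * n + 1 := by exact_mod_cast hm
      have h4 : (r : ℝ) ≤ q := by exact_mod_cast hr
      have h5 : (r : ℝ) * m ≤ q * (2 * n + 1) :=
        mul_le_mul h4 h3 (Nat.cast_nonneg m) hq0.le
      have h6 : (q : ℝ) * (2 * n + 1) ≤ (T : ℝ) ^ (0.98 : ℝ) := by
        rw [one_mul] at g2
        nlinarith
      have h7 : (r : ℝ) * m * β ≤ 1 := by
        have := hB.βT
        have h8 : (r : ℝ) * m * β ≤ (T : ℝ) ^ (0.98 : ℝ) * β :=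
          mul_le_mul_of_nonneg_right (h5.trans h6) hβ.le
        linarith
      have e3 : K * r * m * β = K * ((r : ℝ) * m * β) := by ring
      rw [e3]
      nlinarith
    have hne : r ≠ r' := by
      intro hrr
      have : k = k' := by rw [ek, ek', hrr]
      rw [this] at hcon
      linarith
    -- climbs
    have hclimb : ∀ j < n, ∃ c d : ℤ, (i0 + 2 * (j : ℤ)) * q ≤ c ∧ c < d ∧
        d ≤ (i0 + 2 * ((j + 1 : ℕ) : ℤ)) * q ∧ 0.08 * Real.log T ≤ V d - V c := by
      intro j hj
      have s1 := abs_le.1 (hshape (2 * j) r (by omega) hrq)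
      have s2 := abs_le.1 (hshape (2 * j) r' (by omega) hr'q)
      have s3 := abs_le.1 (hshape (2 * j + 1) r (by omega) hrq)
      push_cast at s1 s2 s3
      rw [ek, ek'] at hcon
      have hq0' : (0 : ℤ) < q := by exact_mod_cast hq0
      rcases Nat.lt_or_gt_of_ne hne with hlt | hgt
      · refine ⟨(i0 + 2 * j) * q + r', (i0 + (2 * j + 1)) * q + r, ?_, ?_, ?_, ?_⟩
        · linarith [Int.natCast_nonneg r']
        · have : (r' : ℤ) ≤ q := by exact_mod_cast hr'q
          have h1 : r' < q + r ∨ (r' = q ∧ r = 0) := by omega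
          rcases h1 with h1 | h1
          · have : (r' : ℤ) < q + r := by exact_mod_cast h1
            nlinarith
          · -- then `V` goes down by more than one along a block
            exfalso
            have hb := hB.blk i0
            have hb0 := abs_le.1 (hB.b0 (x + i0 * β))
            rw [h1.1, h1.2] at hcon
            have e1 : i0 * q + (q : ℤ) = (i0 + 1) * q := by ring
            have e2 : i0 * q + ((0 : ℕ) : ℤ) = i0 * q := by simp
            rw [e1, e2] at hcon
            linarith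
        · have : (r : ℤ) ≤ q := by exact_mod_cast hrq
          push_cast
          nlinarith
        · have hb := hB.blk (i0 + 2 * j)
          have hb0 := abs_le.1 (hB.b0 (x + ((i0 + 2 * j : ℤ) : ℝ) * β))
          have e1 : (i0 + 2 * (j : ℤ) + 1) * q = (i0 + (2 * j + 1)) * q := by ring
          rw [e1] at hb
          linarith [s3.1, s2.2, hb0.1]
      · refine ⟨(i0 + 2 * j) * q + r', (i0 + 2 * j) * q + r, ?_, ?_, ?_, ?_⟩
        · linarith [Int.natCast_nonneg r']
        · have : (r' : ℤ) < r := by exact_mod_cast hgt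
          linarith
        · have : (r : ℤ) ≤ q := by exact_mod_cast hrq
          push_cast
          nlinarith
        · linarith [s1.1, s2.2]
    have hD : 4 / κ ≤ Real.exp (0.08 * Real.log T) := by
      rw [Real.rpow_zero, mul_one] at g1
      refine g1.trans (le_of_eq ?_)
      rw [Real.rpow_def_of_pos hx0]; congr 1; ring
    have hslow := hs κ w V hE (0.08 * Real.log T) n (fun j => (i0 + 2 * (j : ℤ)) * q) hD hclimb T
    have hlast : (i0 + 2 * (n : ℤ)) * q ≤ m₂ := by
      have h1 : (((i0 + 2 * (n : ℤ)) * q : ℤ) : ℝ) ≤ m₂ := by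
        push_cast
        have : 0 ≤ (T : ℝ) ^ (0.96 : ℝ) := by positivity
        nlinarith
      exact_mod_cast h1
    have hfirst : 0 ≤ (i0 + 2 * ((0 : ℕ) : ℤ)) * q := by positivity
    have h1 := (hlow _ _ hfirst hlast).trans hslow
    rw [Real.exp_le_exp] at h1
    have e1 : 4 * (T : ℝ) * Real.exp (-(0.08 * Real.log T)) / κ = 4 / κ * (T : ℝ) ^ (0.92 : ℝ) := by
      have : Real.exp (-(0.08 * Real.log T)) = (T : ℝ) ^ (-0.08 : ℝ) := by
        rw [Real.rpow_def_of_pos hx0]; congr 1; ring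
      have h2 : (T : ℝ) ^ (0.92 : ℝ) = T * (T : ℝ) ^ (-0.08 : ℝ) := by
        rw [mul_comm, ← Real.rpow_add_one hx0.ne']; norm_num
      rw [this, h2]; ring
    rw [e1] at h1
    -- lower bound for n
    have hn3 : (T : ℝ) ^ (0.926 : ℝ) / 2 - 1 ≤ n := by
      have h2 : (T : ℝ) ^ (0.926 : ℝ) * q ≤ (T : ℝ) ^ (0.96 : ℝ) := by
        calc (T : ℝ) ^ (0.926 : ℝ) * q ≤ (T : ℝ) ^ (0.926 : ℝ) * (T : ℝ) ^ (1 / 30 : ℝ) :=
              mul_le_mul_of_nonneg_left hqT (by positivity)
          _ = (T : ℝ) ^ (0.926 + 1 / 30 : ℝ) := by rw [← Real.rpow_add hx0]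
          _ ≤ (T : ℝ) ^ (0.96 : ℝ) := Real.rpow_le_rpow_of_exponent_le (by linarith) (by norm_num)
      have h3 : (T : ℝ) ^ (0.926 : ℝ) * q < (n + 1) * 2 * q := by linarith
      have h4 := lt_of_mul_lt_mul_right h3 hq0.le
      linarith
    have h5 : 4 / κ * (T : ℝ) ^ (0.92 : ℝ) ≤ (T : ℝ) ^ (0.926 : ℝ) / 16 := by
      have e : 64 / κ * (T : ℝ) ^ (0.92 : ℝ) = 16 * (4 / κ * (T : ℝ) ^ (0.92 : ℝ)) := by ring
      rw [e] at g4
      linarith
    linarith

end Q63.LV
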