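import Pool.Agent.Q289.LV.Stm
import Pool.Agent.Q63.LV.Asy

/-! Project LV (MP_545af4_pr, helper289), job CASEA. -/

open Finset Filter

namespace Q63.LV

open Q289.LV

theorem env_rng {κ : ℝ} {w V : ℤ → ℝ} (hE : Env κ w V) : ∀ k, 0 ≤ w k ∧ w k ≤ 1 := fun k => by
  have h0 := hE.pos
  have h1 := hE.lo k
  have h2 := hE.hi k
  constructor <;> linarith

theorem ex_nn (h : S_Hit) (w : ℤ → ℝ) (hw : ∀ k, 0 ≤ w k ∧ w k ≤ 1) (b : ℤ) (t : ℕ) (k : ℤ) :
    0 ≤ Ex w t (one b) k := by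
  have := h.h14 w hw (fun _ => 0) (one b) t k (fun c _ _ => by unfold one; split_ifs <;> norm_num)
  rw [h.h16] at this; exact this

theorem ex_sum (h : S_Hit) (w : ℤ → ℝ) (t : ℕ) (k : ℤ) :
    ∑ b ∈ Icc (k - t) (k + t), Ex w t (one b) k = 1 := by
  have := h.h13 w (fun _ => 1) t k
  rw [h.h16] at this
  simpa using this.symm

theorem sum_rev (hr : S_Rev) {κ : ℝ} {w V : ℤ → ℝ} (hE : Env κ w V) (T : ℕ) (a b : ℤ) :
    ∑ s ∈ range (T + 1), Ex w s (one b) a ≤ (T + 1) * ((1 / κ) * Real.exp (V a - V b)) := by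
  have : ∀ s ∈ range (T + 1), Ex w s (one b) a ≤ (1 / κ) * Real.exp (V a - V b) :=
    fun s _ => hr κ w V hE s a b
  refine (sum_le_sum this).trans ?_
  rw [sum_const, card_range, nsmul_eq_mul]
  push_cast
  exact le_rfl

theorem shift (V : ℤ → ℝ) (q : ℕ) (c : ℝ) (hV : ∀ k : ℤ, |V (k + q) - V k| ≤ c) (m : ℕ) :
    ∀ k : ℤ, |V (k + m * q) - V k| ≤ m * c := by
  induction m with
  | zero => intro k; simp
  | succ m ih =>
    intro k
    have h1 := ih k
    have h2 := hV (k + m * q)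
    have e : k + ((m + 1 : ℕ) : ℤ) * q = k + m * q + q := by push_cast; ring
    rw [e]
    have h3 := abs_add_le (V (k + m * q + q) - V (k + m * q)) (V (k + m * q) - V k)
    have e2 : V (k + m * q + q) - V (k + m * q) + (V (k + m * q) - V k) =
      V (k + m * q + q) - V k := by ring
    rw [e2] at h3
    push_cast
    linarith

theorem shiftz (V : ℤ → ℝ) (q : ℕ) (c : ℝ) (hV : ∀ k : ℤ, |V (k + q) - V k| ≤ c) (m : ℤ) (k : ℤ) :
    |V (k + m * q) - V k| ≤ |(m : ℝ)| * c := by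
  rcases le_total 0 m with hm | hm
  · obtain ⟨n, rfl⟩ := Int.eq_ofNat_of_zero_le hm
    have := shift V q c hV n k
    simpa using this
  · obtain ⟨n, hn⟩ := Int.eq_ofNat_of_zero_le (by omega : 0 ≤ -m)
    have h1 := shift V q c hV n (k + m * q)
    have e : k + m * q + n * q = k := by
      have : m = -n := by omega
      rw [this]; ring
    rw [e, abs_sub_comm] at h1
    have e2 : |(m : ℝ)| = n := by
      have : (m : ℝ) = -(n : ℝ) := by
        have : m = -(n : ℤ) := by omega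
        rw [this]; push_cast; ring
      rw [this, abs_neg, abs_of_nonneg (Nat.cast_nonneg n)]
    rw [e2]; exact h1

theorem caseA (h : S_Hit) (hr : S_Rev) (hc : S_Car) : S_CaseA := by
  intro κ hκ
  have F1 := ev_rpow (2 / 1.01) 1.985 8 (by norm_num)
  have F2 := ev_rpow 0 1.985 8 (by norm_num)
  have F3 := ev_rpow 0 1 (4 * Real.exp 3 / κ) (by norm_num)
  have F4 := ev_rpow 1.2 1.985 2 (by norm_num)
  have F5 := ev_exp (3 * (2 / κ) * Real.exp 1) 5 (1 / 2) 0.2 (by positivity) (by norm_num)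
    (by norm_num)
  obtain ⟨T₀, hT₀⟩ := eventually_atTop.1 (F1.and (F2.and (F3.and (F4.and (F5.and
    (eventually_ge_atTop 3))))))
  refine ⟨T₀, fun T q w V hT hq hE hqT hV => ?_⟩
  obtain ⟨f1, f2, f3, f4, f5, f6⟩ := hT₀ T hT
  have hw := env_rng hE
  have hx3 : (3 : ℝ) ≤ T := by exact_mod_cast f6
  have hx0 : (0 : ℝ) < T := by linarith
  rw [Real.rpow_zero, mul_one] at f2
  rw [Real.rpow_zero, Real.rpow_one, mul_one] at f3
  have hlog : 1 ≤ Real.log T := by
    rw [Real.le_log_iff_exp_le hx0]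
    have := Real.exp_one_lt_d9
    linarith
  have hT1 : 1 / (T : ℝ) ≤ 1 / 3 := one_div_le_one_div_of_le (by norm_num) hx3
  by_cases hcase : ∃ a0 b0 : ℤ, 0 ≤ a0 ∧ a0 ≤ q ∧ 0 ≤ b0 ∧ b0 ≤ q ∧ 4 * Real.log T ≤ V b0 - V a0
  · obtain ⟨a0, b0, ha0, haq, hb0, hbq, hab⟩ := hcase
    have s1 := abs_le.1 (hV b0)
    have s2 := abs_le.1 (hV (b0 - q))
    have s3 := abs_le.1 (hV (b0 - q - q))
    have s4 := abs_le.1 (hV (a0 - q))
    have e2 : b0 - q + (q : ℤ) = b0 := by ring
    have e3 : b0 - q - q + (q : ℤ) = b0 - q := by ring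
    have e4 : a0 - q + (q : ℤ) = a0 := by ring
    rw [e2] at s2
    rw [e3] at s3
    rw [e4] at s4
    -- right side
    have hR : Ex w T (geI (2 * q)) 0 ≤ (T + 1) * ((1 / κ) * Real.exp (3 - 4 * Real.log T)) := by
      refine (h.h5 w hw (2 * q) T 0).trans ?_
      refine (h.h4 w hw (b0 + q) (2 * q) T 0 (by omega)).trans ?_
      refine (h.h3 w hw (b0 + q) T 0 a0 ha0).trans ?_
      refine (h.h6 w hw (b0 + q) T a0 (by omega)).trans ?_
      refine (sum_rev hr hE T a0 (b0 + q)).trans ?_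
      have : Real.exp (V a0 - V (b0 + q)) ≤ Real.exp (3 - 4 * Real.log T) :=
        Real.exp_le_exp.2 (by linarith)
      have h1 : 0 < 1 / κ := by positivity
      gcongr
    have hL : Ex w T (leI (-(2 * q))) 0 ≤ (T + 1) * ((1 / κ) * Real.exp (3 - 4 * Real.log T)) := by
      refine (h.l5 w hw (-(2 * q)) T 0).trans ?_
      refine (h.l4 w hw (-(2 * q)) (b0 - q - q) T 0 (by omega)).trans ?_
      refine (h.l3 w hw (b0 - q - q) T (a0 - q) 0 (by omega)).trans ?_
      refine (h.l6 w hw (b0 - q - q) T (a0 - q) (by omega)).trans ?_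
      refine (sum_rev hr hE T (a0 - q) (b0 - q - q)).trans ?_
      have : Real.exp (V (a0 - q) - V (b0 - q - q)) ≤ Real.exp (3 - 4 * Real.log T) :=
        Real.exp_le_exp.2 (by linarith)
      have h1 : 0 < 1 / κ := by positivity
      gcongr
    have hbd : (T : ℝ) ^ 2 * ((T + 1) * ((1 / κ) * Real.exp (3 - 4 * Real.log T))) ≤ 1 / 2 := by
      have e5 : Real.exp (3 - 4 * Real.log T) = Real.exp 3 / (T : ℝ) ^ 4 := by
        rw [Real.exp_sub]
        congr 1
        have : (4 : ℝ) * Real.log T = Real.log ((T : ℝ) ^ 4) := by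
          rw [Real.log_pow]; norm_num
        rw [this, Real.exp_log (by positivity)]
      rw [e5]
      have h1 : 4 * Real.exp 3 ≤ κ * T := by
        rw [div_le_iff₀ hκ] at f3; linarith
      have e6 : (T : ℝ) ^ 2 * ((T + 1) * ((1 / κ) * (Real.exp 3 / (T : ℝ) ^ 4))) =
          (T + 1) * Real.exp 3 / (κ * (T : ℝ) ^ 2) := by
        field_simp
      rw [e6, div_le_iff₀ (by positivity)]
      have h2 : (T + 1) * Real.exp 3 ≤ (T + 1) * (κ * T / 4) := by
        apply mul_le_mul_of_nonneg_left _ (by linarith)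
        linarith
      have h3 : (T + 1) * (κ * T / 4) ≤ 1 / 2 * (κ * (T : ℝ) ^ 2) := by
        have : 0 < κ * T := by positivity
        nlinarith
      linarith
    have hk : Ex w T (fun k => (k : ℝ) ^ 2) 0 ≤ Ex w T (fun b => (fun b => (4 * (q : ℝ) ^ 2) +
        (T : ℝ) ^ 2 * geI (2 * q) b) b + (T : ℝ) ^ 2 * leI (-(2 * q)) b) 0 := by
      refine h.h14 w hw _ _ T 0 fun b hb1 hb2 => ?_
      simp only [geI, leI]
      have hb1' : -(T : ℝ) ≤ b := by
        have : -(T : ℤ) ≤ b := by omega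
        exact_mod_cast this
      have hb2' : (b : ℝ) ≤ T := by
        have : b ≤ (T : ℤ) := by omega
        exact_mod_cast this
      have hbT : (b : ℝ) ^ 2 ≤ (T : ℝ) ^ 2 := by nlinarith
      by_cases c1 : 2 * (q : ℤ) ≤ b
      · rw [if_pos c1]
        have : 0 ≤ (T : ℝ) ^ 2 * (if b ≤ -(2 * (q : ℤ)) then (1 : ℝ) else 0) := by
          split_ifs <;> positivity
        have : 0 ≤ 4 * (q : ℝ) ^ 2 := by positivity
        linarith
      · by_cases c2 : b ≤ -(2 * (q : ℤ))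
        · rw [if_pos c2, if_neg c1]
          have : 0 ≤ 4 * (q : ℝ) ^ 2 := by positivity
          linarith
        · rw [if_neg c2, if_neg c1]
          have d1 : (b : ℝ) ≤ 2 * q := by
            have : b ≤ 2 * (q : ℤ) := by omega
            exact_mod_cast this
          have d2 : -(2 * (q : ℝ)) ≤ b := by
            have : -(2 * (q : ℤ)) ≤ b := by omega
            exact_mod_cast this
          nlinarith
    rw [h.h15, h.h15, h.h16] at hk
    have g1 := mul_le_mul_of_nonneg_left hR (by positivity : (0 : ℝ) ≤ (T : ℝ) ^ 2)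
    have g2 := mul_le_mul_of_nonneg_left hL (by positivity : (0 : ℝ) ≤ (T : ℝ) ^ 2)
    have hq2 : (q : ℝ) ^ 2 ≤ (T : ℝ) ^ (2 / 1.01 : ℝ) := by
      have h1 : ((q : ℝ) ^ (1.01 : ℝ)) ^ (2 / 1.01 : ℝ) ≤ (T : ℝ) ^ (2 / 1.01 : ℝ) :=
        Real.rpow_le_rpow (by positivity) hqT (by norm_num)
      rw [← Real.rpow_mul (Nat.cast_nonneg q)] at h1
      have e : (1.01 : ℝ) * (2 / 1.01) = (2 : ℕ) := by norm_num
      rw [e, Real.rpow_natCast] at h1
      exact h1
    linarith
  · have hcase' : ∀ a0 b0 : ℤ, 0 ≤ a0 → a0 ≤ q → 0 ≤ b0 → b0 ≤ q → V b0 - V a0 < 4 * Real.log T := by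
      intro a0 b0 h1 h2 h3 h4
      by_contra h5
      exact hcase ⟨a0, b0, h1, h2, h3, h4, not_lt.1 h5⟩
    have hVb : ∀ b : ℤ, -(T : ℤ) ≤ b → b ≤ T → V 0 - V b ≤ 4 * Real.log T + 2 := by
      intro b hb1 hb2
      have hq0 : (0 : ℤ) < q := by omega
      have h1 := hcase' (b % q) 0 (Int.emod_nonneg _ hq0.ne')
        (Int.emod_lt_of_pos _ hq0).le le_rfl (by omega)
      have h2 := shiftz V q (1 / T) hV (b / q) (b % q)
      have e : b % (q : ℤ) + b / q * q = b := by
        have := Int.emod_add_mul_ediv b q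
        linarith
      rw [e] at h2
      have h3 : |((b / (q : ℤ) : ℤ) : ℝ)| ≤ T := by
        have h4 : |b / (q : ℤ)| ≤ T := (Int.abs_ediv_le_abs b q).trans (abs_le.2 ⟨hb1, hb2⟩)
        exact_mod_cast h4
      have h5 : |((b / (q : ℤ) : ℤ) : ℝ)| * (1 / T) ≤ 1 := by
        rw [mul_one_div, div_le_one hx0]; exact h3
      have h6 := (abs_le.1 (h2.trans h5)).1
      linarith
    set E := 2 / κ * Real.exp 1 * (T : ℝ) ^ 4 * Real.exp (-((1 / 2) * (T : ℝ) ^ (0.2 : ℝ))) with hEd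
    have hE0 : 0 ≤ E := by positivity
    have hterm : ∀ b ∈ Icc ((0 : ℤ) - T) (0 + T), Ex w T (one b) 0 * (b : ℝ) ^ 2 ≤
        (T : ℝ) ^ (1.2 : ℝ) * Ex w T (one b) 0 + E := by
      intro b hb
      have hb' := mem_Icc.1 hb
      have hnn := ex_nn h w hw b T 0
      have hb1' : -(T : ℝ) ≤ b := by
        have : -(T : ℤ) ≤ b := by omega
        exact_mod_cast this
      have hb2' : (b : ℝ) ≤ T := by
        have : b ≤ (T : ℤ) := by omega
        exact_mod_cast this
      have hbT : (b : ℝ) ^ 2 ≤ (T : ℝ) ^ 2 := by nlinarith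
      by_cases c : (b : ℝ) ^ 2 ≤ (T : ℝ) ^ (1.2 : ℝ)
      · have := mul_le_mul_of_nonneg_left c hnn
        linarith
      · rw [not_le] at c
        have h1 := hc κ w V hE T 0 b (by omega)
        have h2 := hVb b (by omega) (by omega)
        have h3 : Real.exp ((V 0 - V b) / 2) ≤ Real.exp 1 * (T : ℝ) ^ 2 := by
          have e : Real.exp 1 * (T : ℝ) ^ 2 = Real.exp (1 + 2 * Real.log T) := by
            rw [Real.exp_add]
            congr 1
            have : (2 : ℝ) * Real.log T = Real.log ((T : ℝ) ^ 2) := by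
              rw [Real.log_pow]; norm_num
            rw [this, Real.exp_log (by positivity)]
          rw [e]
          exact Real.exp_le_exp.2 (by linarith)
        have h4 : Real.exp (-((b : ℝ) - (0 : ℤ)) ^ 2 / (2 * T)) ≤
            Real.exp (-((1 / 2) * (T : ℝ) ^ (0.2 : ℝ))) := by
          apply Real.exp_le_exp.2
          have e : (T : ℝ) ^ (1.2 : ℝ) = (T : ℝ) ^ (0.2 : ℝ) * T := by
            rw [← Real.rpow_add_one hx0.ne']; norm_num
          rw [e] at c
          rw [Int.cast_zero, sub_zero, neg_div, neg_le_neg_iff, le_div_iff₀ (by positivity)]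
          nlinarith
        have h5 : Ex w T (one b) 0 ≤ 2 / κ * (Real.exp 1 * (T : ℝ) ^ 2) *
            Real.exp (-((1 / 2) * (T : ℝ) ^ (0.2 : ℝ))) := by
          refine h1.trans ?_
          have : 0 < 2 / κ := by positivity
          gcongr
        have h6 : Ex w T (one b) 0 * (b : ℝ) ^ 2 ≤ (2 / κ * (Real.exp 1 * (T : ℝ) ^ 2) *
            Real.exp (-((1 / 2) * (T : ℝ) ^ (0.2 : ℝ)))) * (T : ℝ) ^ 2 :=
          mul_le_mul h5 hbT (sq_nonneg _) (by positivity)
        have e7 : (2 / κ * (Real.exp 1 * (T : ℝ) ^ 2) *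
            Real.exp (-((1 / 2) * (T : ℝ) ^ (0.2 : ℝ)))) * (T : ℝ) ^ 2 = E := by
          rw [hEd]; ring
        rw [e7] at h6
        have h8 : 0 ≤ (T : ℝ) ^ (1.2 : ℝ) * Ex w T (one b) 0 := by positivity
        linarith
    rw [h.h13]
    refine (sum_le_sum hterm).trans ?_
    rw [sum_add_distrib, ← mul_sum, ex_sum h, mul_one, sum_const, Int.card_Icc, nsmul_eq_mul]
    have e1 : ((((0 : ℤ) + T + 1 - (0 - T)).toNat : ℕ) : ℝ) = 2 * T + 1 := by
      have h1 : ((((0 : ℤ) + T + 1 - (0 - T)).toNat : ℕ) : ℤ) = 2 * T + 1 := by omega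
      have h2 := congrArg (fun z : ℤ => (z : ℝ)) h1
      push_cast at h2
      simpa using h2
    rw [e1]
    have h1 : (2 * (T : ℝ) + 1) * E ≤ 1 := by
      refine le_trans ?_ f5
      have e5 : (T : ℝ) ^ (5 : ℝ) = (T : ℝ) ^ 4 * T := by
        have : (5 : ℝ) = ((5 : ℕ) : ℝ) := by norm_num
        rw [this, Real.rpow_natCast]; ring
      rw [e5]
      have e6 : 3 * (2 / κ) * Real.exp 1 * ((T : ℝ) ^ 4 * T) *
          Real.exp (-(1 / 2 * (T : ℝ) ^ (0.2 : ℝ))) = 3 * T * E := by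
        rw [hEd]; ring
      rw [e6]
      exact mul_le_mul_of_nonneg_right (by linarith) hE0
    have h2 : 1 ≤ (T : ℝ) ^ (1.2 : ℝ) := Real.one_le_rpow (by linarith) (by norm_num)
    linarith

end Q63.LV
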