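import Pool.Agent.Q289.LV.Stm

/-! Project LV (MP_545af4_pr, helper289), job CONC: concentration of the hitting times in an
environment reflecting at `-L` whose potential decreases linearly. -/

open Finset

namespace Q63.LV

open Q289.LV

/-- the recursion `x_{n+1} = g (n+1-L) + ρ (n+1-L) x_n`, `x_0 = c` -/
noncomputable def rc (c : ℝ) (g ρ : ℤ → ℝ) (L : ℕ) : ℕ → ℝ
  | 0 => c
  | (n + 1) => g ((n : ℤ) + 1 - L) + ρ ((n : ℤ) + 1 - L) * rc c g ρ L n

noncomputable def rz (c : ℝ) (g ρ : ℤ → ℝ) (L : ℕ) (k : ℤ) : ℝ := rc c g ρ L (k + L).toNat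

theorem rz_le (c : ℝ) (g ρ : ℤ → ℝ) (L : ℕ) (k : ℤ) (hk : k ≤ -(L : ℤ)) : rz c g ρ L k = c := by
  unfold rz
  have : (k + L).toNat = 0 := by omega
  rw [this]; rfl

theorem rz_gt (c : ℝ) (g ρ : ℤ → ℝ) (L : ℕ) (k : ℤ) (hk : -(L : ℤ) < k) :
    rz c g ρ L k = g k + ρ k * rz c g ρ L (k - 1) := by
  unfold rz
  obtain ⟨n, hn⟩ : ∃ n : ℕ, (k + L).toNat = n + 1 := ⟨(k + L).toNat - 1, by omega⟩
  have h2 : (k - 1 + L).toNat = n := by omega
  have h3 : (n : ℤ) + 1 - L = k := by omega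
  rw [hn, h2, rc, h3]

theorem prod_step (ρ : ℤ → ℝ) (i k : ℤ) (h : i ≤ k) :
    ∏ j ∈ Ioc i (k + 1), ρ j = ρ (k + 1) * ∏ j ∈ Ioc i k, ρ j := by
  have : Ioc i (k + 1) = insert (k + 1) (Ioc i k) := by
    ext x; simp only [mem_Ioc, mem_insert]; omega
  rw [this, prod_insert (by simp)]

theorem rc_bd (c G : ℝ) (g ρ : ℤ → ℝ) (L : ℕ) (B : ℤ) (hc : c ≤ G)
    (hρ : ∀ k : ℤ, -(L : ℤ) < k → 0 ≤ ρ k)
    (hg : ∀ k : ℤ, -(L : ℤ) < k → k < B → g k ≤ G) (n : ℕ) (hn : (n : ℤ) - L < B) :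
    rc c g ρ L n ≤ G * ∑ i ∈ range (n + 1), ∏ j ∈ Ioc ((i : ℤ) - L) ((n : ℤ) - L), ρ j := by
  induction n with
  | zero => simpa [rc] using hc
  | succ n ih =>
    have ih' := ih (by push_cast at hn ⊢; omega)
    have e1 : ((n + 1 : ℕ) : ℤ) - L = ((n : ℤ) - L) + 1 := by push_cast; ring
    have e2 : ((n : ℤ) + 1 - L) = ((n : ℤ) - L) + 1 := by ring
    rw [rc, sum_range_succ, e1, e2]
    have e3 : ∑ i ∈ range (n + 1), ∏ j ∈ Ioc ((i : ℤ) - L) (((n : ℤ) - L) + 1), ρ j =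
        ρ (((n : ℤ) - L) + 1) * ∑ i ∈ range (n + 1), ∏ j ∈ Ioc ((i : ℤ) - L) ((n : ℤ) - L), ρ j := by
      rw [mul_sum]
      refine sum_congr rfl fun i hi => prod_step ρ _ _ ?_
      have := mem_range.1 hi
      omega
    have e4 : ∏ j ∈ Ioc (((n : ℤ) - L) + 1) (((n : ℤ) - L) + 1), ρ j = 1 := by
      simp
    rw [e3, e4]
    have h1 : g (((n : ℤ) - L) + 1) ≤ G := hg _ (by omega) (by push_cast at hn; omega)
    have h2 : 0 ≤ ρ (((n : ℤ) - L) + 1) := hρ _ (by omega)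
    nlinarith [mul_le_mul_of_nonneg_left ih' h2]

theorem rc_nn (c : ℝ) (g ρ : ℤ → ℝ) (L : ℕ) (hc : 0 ≤ c)
    (hρ : ∀ k : ℤ, -(L : ℤ) < k → 0 ≤ ρ k)
    (hg : ∀ k : ℤ, -(L : ℤ) < k → 0 ≤ g k) (n : ℕ) : 0 ≤ rc c g ρ L n := by
  induction n with
  | zero => simpa [rc] using hc
  | succ n ih =>
    rw [rc]
    have h1 := hg ((n : ℤ) + 1 - L) (by omega)
    have h2 := hρ ((n : ℤ) + 1 - L) (by omega)
    positivity

theorem geo (σ : ℝ) (h0 : 0 < σ) (h1 : σ ≤ 1) (n : ℕ) :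
    ∑ i ∈ range (n + 1), Real.exp (-σ * ((n : ℝ) - i)) ≤ 2 / σ := by
  have e1 : ∑ i ∈ range (n + 1), Real.exp (-σ * ((n : ℝ) - i)) =
      ∑ i ∈ range (n + 1), (Real.exp (-σ)) ^ i := by
    rw [← sum_range_reflect]
    refine sum_congr rfl fun i hi => ?_
    have hi' := mem_range.1 hi
    rw [← Real.exp_nat_mul]
    congr 1
    have : ((n + 1 - 1 - i : ℕ) : ℝ) = (n : ℝ) - i := by
      rw [Nat.add_sub_cancel, Nat.cast_sub (by omega)]
    rw [this]; ring
  have hx : Real.exp (-σ) ≤ 1 - σ / 2 := by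
    rw [Real.exp_neg]
    have h2 : 1 + σ ≤ Real.exp σ := by linarith [Real.add_one_le_exp σ]
    have h3 : (Real.exp σ)⁻¹ ≤ (1 + σ)⁻¹ := inv_anti₀ (by linarith) h2
    refine h3.trans ?_
    rw [inv_le_iff_one_le_mul₀ (by linarith)]
    nlinarith
  have h0' : 0 < Real.exp (-σ) := Real.exp_pos _
  have e2 := mul_neg_geom_sum (Real.exp (-σ)) (n + 1)
  have h5 : 0 ≤ ∑ i ∈ range (n + 1), (Real.exp (-σ)) ^ i :=
    sum_nonneg fun i _ => by positivity
  have h6 : 0 < (Real.exp (-σ)) ^ (n + 1) := by positivity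
  rw [e1, le_div_iff₀ h0]
  nlinarith

theorem rc_bd2 (c G A σ : ℝ) (g v : ℤ → ℝ) (L : ℕ) (B : ℤ) (hc : c ≤ G) (hG : 0 ≤ G)
    (hA : 1 ≤ A) (h0 : 0 < σ) (h1 : σ ≤ 1)
    (hρ : ∀ k : ℤ, -(L : ℤ) < k → 0 ≤ (1 - v k) / v k)
    (hg : ∀ k : ℤ, -(L : ℤ) < k → k < B → g k ≤ G)
    (hp : ∀ i k : ℤ, -(L : ℤ) ≤ i → i ≤ k → k < B →
      ∏ j ∈ Finset.Ioc i k, ((1 - v j) / v j) ≤ A * Real.exp (-σ * ((k : ℝ) - i)))
    (n : ℕ) (hn : (n : ℤ) - L < B) :
    rc c g (fun j => (1 - v j) / v j) L n ≤ G * (2 * A / σ) := by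
  refine (rc_bd c G g _ L B hc hρ hg n hn).trans ?_
  refine mul_le_mul_of_nonneg_left ?_ hG
  have e1 : ∑ i ∈ range (n + 1), ∏ j ∈ Ioc ((i : ℤ) - L) ((n : ℤ) - L), (1 - v j) / v j ≤
      ∑ i ∈ range (n + 1), A * Real.exp (-σ * ((n : ℝ) - i)) := by
    refine sum_le_sum fun i hi => ?_
    have hi' := mem_range.1 hi
    refine (hp _ _ (by omega) (by omega) hn).trans (le_of_eq ?_)
    congr 3
    push_cast; ring
  refine e1.trans ?_
  rw [← mul_sum]
  have := mul_le_mul_of_nonneg_left (geo σ h0 h1 n) (by linarith : (0 : ℝ) ≤ A)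
  refine this.trans (le_of_eq (by ring))

theorem rz_bd (c G A σ : ℝ) (g v : ℤ → ℝ) (L : ℕ) (B : ℤ) (hc : c ≤ G) (hG : 0 ≤ G)
    (hA : 1 ≤ A) (h0 : 0 < σ) (h1 : σ ≤ 1)
    (hρ : ∀ k : ℤ, -(L : ℤ) < k → 0 ≤ (1 - v k) / v k)
    (hg : ∀ k : ℤ, -(L : ℤ) < k → k < B → g k ≤ G)
    (hp : ∀ i k : ℤ, -(L : ℤ) ≤ i → i ≤ k → k < B →
      ∏ j ∈ Finset.Ioc i k, ((1 - v j) / v j) ≤ A * Real.exp (-σ * ((k : ℝ) - i)))
    (k : ℤ) (hk : k < B) (hk0 : -(L : ℤ) ≤ k) :
    rz c g (fun j => (1 - v j) / v j) L k ≤ G * (2 * A / σ) :=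
  rc_bd2 c G A σ g v L B hc hG hA h0 h1 hρ hg hp _ (by omega)

theorem pop_mono (v f g : ℤ → ℝ) (k : ℤ) (hv : 0 ≤ v k ∧ v k ≤ 1) (h1 : f (k + 1) ≤ g (k + 1))
    (h2 : f (k - 1) ≤ g (k - 1)) : Pop v f k ≤ Pop v g k := by
  unfold Pop
  have := mul_le_mul_of_nonneg_left h1 hv.1
  have := mul_le_mul_of_nonneg_left h2 (by linarith [hv.2] : (0 : ℝ) ≤ 1 - v k)
  linarith

/-- abstract form: `u`, `s` with the two recursions give the second moment bounds -/
theorem core (v u s : ℤ → ℝ) (b : ℤ) (hv : ∀ k, 0 ≤ v k ∧ v k ≤ 1)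
    (hu0 : ∀ k, 0 ≤ u k) (hs0 : ∀ k, 0 ≤ s k)
    (hu : ∀ k, v k * u k = 1 + (1 - v k) * u (k - 1))
    (hs : ∀ k, v k * s k = (1 - v k) * s (k - 1) + v k * (1 - v k) * (u k + u (k - 1)) ^ 2)
    (μ : ℝ) :
    (∀ T : ℝ, T ≤ μ → ∀ (r : ℕ) (k : ℤ), k ≤ b → (μ - T) ^ 2 * Hit v b r k ≤
      (T - r + ∑ j ∈ Ico k b, u j - μ) ^ 2 + ∑ j ∈ Ico k b, s j) ∧
    (∀ T : ℝ, μ ≤ T → ∀ (r : ℕ) (k : ℤ), k ≤ b → (μ - T) ^ 2 * (1 - Hit v b r k) ≤
      (T - r + ∑ j ∈ Ico k b, u j - μ) ^ 2 + ∑ j ∈ Ico k b, s j) := by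
  have hIco : ∀ (f : ℤ → ℝ) (k : ℤ), k < b → ∑ j ∈ Ico k b, f j = f k + ∑ j ∈ Ico (k + 1) b, f j := by
    intro f k hk
    have : Ico k b = insert k (Ico (k + 1) b) := by
      ext x; simp only [mem_Ico, mem_insert]; omega
    rw [this, sum_insert (by simp)]
  have hIco' : ∀ (f : ℤ → ℝ) (k : ℤ), k < b →
      ∑ j ∈ Ico (k - 1) b, f j = f (k - 1) + ∑ j ∈ Ico k b, f j := by
    intro f k hk
    have := hIco f (k - 1) (by omega)
    rw [this]; congr 2; congr 1; ring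
  have hpop : ∀ (t : ℝ) (k : ℤ), k < b →
      Pop v (fun k => (t + 1 + ∑ j ∈ Ico k b, u j - μ) ^ 2 + ∑ j ∈ Ico k b, s j) k =
        (t + ∑ j ∈ Ico k b, u j - μ) ^ 2 + ∑ j ∈ Ico k b, s j := by
    intro t k hk
    unfold Pop
    simp only
    have a1 := hIco u k hk
    have a2 := hIco' u k hk
    have a3 := hIco s k hk
    have a4 := hIco' s k hk
    have b1 := hu k
    have b2 := hs k
    set M := ∑ j ∈ Ico k b, u j
    set S := ∑ j ∈ Ico k b, s j
    have c1 : ∑ j ∈ Ico (k + 1) b, u j = M - u k := by linarith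
    have c3 : ∑ j ∈ Ico (k + 1) b, s j = S - s k := by linarith
    rw [c1, c3, a2, a4]
    linear_combination (-2 * (t + M - μ) + (v k * u k - 1 - (1 - v k) * u (k - 1))) * b1 - b2
  have hm0 : ∀ k, 0 ≤ ∑ j ∈ Ico k b, u j := fun k => sum_nonneg fun j _ => hu0 j
  have hS0 : ∀ k, 0 ≤ ∑ j ∈ Ico k b, s j := fun k => sum_nonneg fun j _ => hs0 j
  refine ⟨fun T hT r => ?_, fun T hT r => ?_⟩
  · induction r with
    | zero =>
      intro k hk
      by_cases h : b ≤ k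
      · have : k = b := le_antisymm hk h
        subst this
        simp [Hit]
        nlinarith
      · have h1 := hS0 k
        simp [Hit, h]
        positivity
    | succ r ih =>
      intro k hk
      by_cases h : b ≤ k
      · have : k = b := le_antisymm hk h
        subst this
        simp [Hit]
        have : (0 : ℝ) ≤ r := Nat.cast_nonneg r
        nlinarith
      · rw [not_le] at h
        have e1 : Hit v b (r + 1) k = Pop v (Hit v b r) k := by simp [Hit, not_le.2 h]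
        have e2 : (μ - T) ^ 2 * Pop v (Hit v b r) k = Pop v (fun k => (μ - T) ^ 2 * Hit v b r k) k := by
          unfold Pop; ring
        rw [e1, e2]
        have e3 := pop_mono v (fun k => (μ - T) ^ 2 * Hit v b r k)
          (fun k => (T - r + ∑ j ∈ Ico k b, u j - μ) ^ 2 + ∑ j ∈ Ico k b, s j) k (hv k)
          (ih (k + 1) (by omega)) (ih (k - 1) (by omega))
        refine e3.trans (le_of_eq ?_)
        have e4 := hpop (T - (r + 1 : ℝ)) k h
        have e5 : T - (r + 1 : ℝ) + 1 = T - r := by ring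
        rw [e5] at e4
        rw [e4]; push_cast; rfl
  · induction r with
    | zero =>
      intro k hk
      by_cases h : b ≤ k
      · have h1 := hS0 k
        simp [Hit, h]
        positivity
      · have h1 := hS0 k
        have h2 := hm0 k
        simp [Hit, h]
        nlinarith
    | succ r ih =>
      intro k hk
      by_cases h : b ≤ k
      · have h1 := hS0 k
        simp [Hit, h]
        positivity
      · rw [not_le] at h
        have e1 : Hit v b (r + 1) k = Pop v (Hit v b r) k := by simp [Hit, not_le.2 h]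
        have e2 : (μ - T) ^ 2 * (1 - Pop v (Hit v b r) k) =
            Pop v (fun k => (μ - T) ^ 2 * (1 - Hit v b r k)) k := by
          unfold Pop; ring
        rw [e1, e2]
        have e3 := pop_mono v (fun k => (μ - T) ^ 2 * (1 - Hit v b r k))
          (fun k => (T - r + ∑ j ∈ Ico k b, u j - μ) ^ 2 + ∑ j ∈ Ico k b, s j) k (hv k)
          (ih (k + 1) (by omega)) (ih (k - 1) (by omega))
        refine e3.trans (le_of_eq ?_)
        have e4 := hpop (T - (r + 1 : ℝ)) k h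
        have e5 : T - (r + 1 : ℝ) + 1 = T - r := by ring
        rw [e5] at e4
        rw [e4]; push_cast; rfl

theorem conc : S_Conc := by
  intro κ A σ L B v hκ hκ2 hA hσ hσ1 hv1 hv2 hp
  have hv : ∀ k, 0 ≤ v k ∧ v k ≤ 1 := by
    intro k
    by_cases h : k ≤ -(L : ℤ)
    · rw [hv1 k h]; norm_num
    · have := hv2 k (by omega); constructor <;> linarith
  have hρ : ∀ k : ℤ, -(L : ℤ) < k → 0 ≤ (1 - v k) / v k := by
    intro k hk
    have := hv2 k hk
    exact div_nonneg (by linarith) (by linarith)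
  set ρ : ℤ → ℝ := fun j => (1 - v j) / v j with hρd
  set u : ℤ → ℝ := rz 1 (fun k => 1 / v k) ρ L with hu
  have hg1 : ∀ k : ℤ, -(L : ℤ) < k → (1 : ℝ) / v k ≤ 1 / κ := fun k hk =>
    one_div_le_one_div_of_le hκ (hv2 k hk).1
  have hκ1 : (1 : ℝ) ≤ 1 / κ := by rw [le_div_iff₀ hκ]; linarith
  have hug : ∀ k : ℤ, -(L : ℤ) < k → u k = 1 / v k + ρ k * u (k - 1) := fun k hk =>
    rz_gt _ _ _ _ _ hk
  have hul : ∀ k : ℤ, k ≤ -(L : ℤ) → u k = 1 := fun k hk => rz_le _ _ _ _ _ hk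
  have hu0 : ∀ k, 0 ≤ u k := fun k => rc_nn _ _ _ _ (by norm_num) hρ
    (fun k hk => by have := hv2 k hk; exact div_nonneg (by norm_num) (by linarith)) _
  have hu1 : ∀ k, 1 ≤ u k := by
    intro k
    by_cases h : k ≤ -(L : ℤ)
    · rw [hul k h]
    · rw [not_le] at h
      rw [hug k h]
      have h1 := hρ k h
      have h2 := hu0 (k - 1)
      have h3 := hv2 k h
      have h4 : (1 : ℝ) ≤ 1 / v k := by
        rw [le_div_iff₀ (by linarith)]; linarith
      have : 0 ≤ ρ k * u (k - 1) := mul_nonneg h1 h2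
      linarith
  have hub : ∀ k : ℤ, k < B → u k ≤ 2 * A / (κ * σ) := by
    intro k hk
    by_cases h : -(L : ℤ) ≤ k
    · have := rz_bd 1 (1 / κ) A σ (fun k => 1 / v k) v L B hκ1 (by positivity) hA hσ hσ1 hρ
        (fun k hk _ => hg1 k hk) hp k hk h
      refine this.trans (le_of_eq ?_)
      field_simp
    · rw [hul k (by omega), le_div_iff₀ (by positivity)]
      nlinarith
  set g2 : ℤ → ℝ := fun k => (1 - v k) * (u k + u (k - 1)) ^ 2 with hg2
  set s : ℤ → ℝ := rz 0 g2 ρ L with hs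
  have hsg : ∀ k : ℤ, -(L : ℤ) < k → s k = g2 k + ρ k * s (k - 1) := fun k hk =>
    rz_gt _ _ _ _ _ hk
  have hsl : ∀ k : ℤ, k ≤ -(L : ℤ) → s k = 0 := fun k hk => rz_le _ _ _ _ _ hk
  have hg20 : ∀ k, 0 ≤ g2 k := fun k => mul_nonneg (by linarith [(hv k).2]) (sq_nonneg _)
  have hs0 : ∀ k, 0 ≤ s k := fun k => rc_nn _ _ _ _ (by norm_num) hρ (fun k _ => hg20 k) _
  have hG : (0 : ℝ) ≤ 16 * A ^ 2 / (κ ^ 2 * σ ^ 2) := by positivity
  have hsb : ∀ k : ℤ, k < B → s k ≤ 32 * A ^ 3 / (κ ^ 2 * σ ^ 3) := by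
    intro k hk
    by_cases h : -(L : ℤ) ≤ k
    · have := rz_bd 0 (16 * A ^ 2 / (κ ^ 2 * σ ^ 2)) A σ g2 v L B hG hG hA hσ hσ1 hρ
        (fun k hk hkB => by
          have h1 := hub k hkB
          have h2 := hub (k - 1) (by omega)
          have h3 := hu0 k
          have h4 := hu0 (k - 1)
          have h5 := hv k
          have h6 : (u k + u (k - 1)) ^ 2 ≤ (4 * A / (κ * σ)) ^ 2 := by
            have h7 : u k + u (k - 1) ≤ 4 * A / (κ * σ) := by
              have : (4 * A / (κ * σ)) = 2 * A / (κ * σ) + 2 * A / (κ * σ) := by ring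
              rw [this]; linarith
            exact pow_le_pow_left₀ (by linarith) h7 2
          have h8 : (4 * A / (κ * σ)) ^ 2 = 16 * A ^ 2 / (κ ^ 2 * σ ^ 2) := by
            rw [div_pow]; ring
          rw [h8] at h6
          have h9 : g2 k ≤ 1 * (u k + u (k - 1)) ^ 2 :=
            mul_le_mul_of_nonneg_right (by linarith) (sq_nonneg _)
          linarith) hp k hk h
      refine this.trans (le_of_eq ?_)
      field_simp
      norm_num
    · rw [hsl k (by omega)]; positivity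
  have hurec : ∀ k, v k * u k = 1 + (1 - v k) * u (k - 1) := by
    intro k
    by_cases h : k ≤ -(L : ℤ)
    · rw [hul k h, hv1 k h]; ring
    · rw [not_le] at h
      rw [hug k h]
      have h3 := hv2 k h
      have h4 : v k ≠ 0 := by linarith
      simp only [hρd]
      field_simp
  have hsrec : ∀ k, v k * s k = (1 - v k) * s (k - 1) +
      v k * (1 - v k) * (u k + u (k - 1)) ^ 2 := by
    intro k
    by_cases h : k ≤ -(L : ℤ)
    · rw [hsl k h, hv1 k h]; ring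
    · rw [not_le] at h
      rw [hsg k h]
      have h3 := hv2 k h
      have h4 : v k ≠ 0 := by linarith
      simp only [hρd, hg2]
      field_simp
      ring
  refine ⟨fun b => ∑ j ∈ Ico 0 b, u j, ?_, ?_⟩
  · intro b' b'' h0 h1 h2
    have e0 : Ico 0 b'' = Ico 0 b' ∪ Ico b' b'' := by
      ext x; simp only [mem_Ico, mem_union]; omega
    have e1 : ∑ j ∈ Ico 0 b'', u j = ∑ j ∈ Ico 0 b', u j + ∑ j ∈ Ico b' b'', u j := by
      rw [e0, sum_union]
      rw [disjoint_left]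
      intro x hx hx'
      have := mem_Ico.1 hx
      have := mem_Ico.1 hx'
      omega
    have e2 : ∑ j ∈ Ico b' b'', (1 : ℝ) ≤ ∑ j ∈ Ico b' b'', u j :=
      sum_le_sum fun j _ => hu1 j
    have e3 : ∑ j ∈ Ico b' b'', (1 : ℝ) = (b'' : ℝ) - b' := by
      rw [sum_const, Int.card_Ico, nsmul_eq_mul, mul_one]
      have h3 : (((b'' - b').toNat : ℕ) : ℤ) = b'' - b' := by omega
      have h4 := congrArg (fun z : ℤ => (z : ℝ)) h3
      push_cast at h4
      simpa using h4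
    simp only
    linarith
  · intro b T hb hbB
    have hc := core v u s b hv hu0 hs0 hurec hsrec (∑ j ∈ Ico 0 b, u j)
    have hSb : ∑ j ∈ Ico 0 b, s j ≤ b * (32 * A ^ 3 / (κ ^ 2 * σ ^ 3)) := by
      have : ∑ j ∈ Ico 0 b, s j ≤ ∑ j ∈ Ico 0 b, 32 * A ^ 3 / (κ ^ 2 * σ ^ 3) :=
        sum_le_sum fun j hj => hsb j (by have := mem_Ico.1 hj; omega)
      refine this.trans (le_of_eq ?_)
      rw [sum_const, Int.card_Ico, nsmul_eq_mul]
      have : (((b - 0).toNat : ℕ) : ℝ) = b := by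
        have h1 : (((b - 0).toNat : ℕ) : ℤ) = b := by omega
        exact_mod_cast congrArg (fun z : ℤ => (z : ℝ)) h1
      rw [this]
    set M := ∑ j ∈ Ico 0 b, u j with hM
    have hz : ((T : ℝ) - T + M - M) ^ 2 = 0 := by ring
    refine ⟨fun hT => ?_, fun hT => ?_⟩
    · have h1 := hc.1 T hT.le T 0 hb.le
      rw [← hM, hz] at h1
      have h2 : 0 < (M - T) ^ 2 := by have : 0 < M - T := by linarith
                                      positivity
      have h3 : 32 * b * A ^ 3 / (κ ^ 2 * σ ^ 3 * (M - T) ^ 2) =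
          (b * (32 * A ^ 3 / (κ ^ 2 * σ ^ 3))) / (M - T) ^ 2 := by
        field_simp
      rw [h3, le_div_iff₀ h2]
      linarith
    · have h1 := hc.2 T hT.le T 0 hb.le
      rw [← hM, hz] at h1
      have h2 : 0 < (T - M) ^ 2 := by have : 0 < T - M := by linarith
                                      positivity
      have h3 : 32 * b * A ^ 3 / (κ ^ 2 * σ ^ 3 * (T - M) ^ 2) =
          (b * (32 * A ^ 3 / (κ ^ 2 * σ ^ 3))) / (T - M) ^ 2 := by
        field_simp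
      have h4 : (M - (T : ℝ)) ^ 2 = (T - M) ^ 2 := by ring
      rw [h4] at h1
      rw [h3, le_div_iff₀ h2]
      linarith

end Q63.LV
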