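import Pool.Agent.Q289.LV.Stm

/-! Project LV (MP_545af4_pr, helper289), job SLOW: crossing `n` consecutive segments each of
which contains a climb `≥ D`. -/

open Finset

namespace Q63.LV

open Q289.LV

theorem pop_mono' (v f g : ℤ → ℝ) (k : ℤ) (hv : 0 ≤ v k ∧ v k ≤ 1) (h1 : f (k + 1) ≤ g (k + 1))
    (h2 : f (k - 1) ≤ g (k - 1)) : Pop v f k ≤ Pop v g k := by
  unfold Pop
  have := mul_le_mul_of_nonneg_left h1 hv.1
  have := mul_le_mul_of_nonneg_left h2 (by linarith [hv.2] : (0 : ℝ) ≤ 1 - v k)
  linarith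

/-- generating function of the hitting time of `[b, ∞)`, up to time `t` -/
noncomputable def GF (w : ℤ → ℝ) (x : ℝ) (b : ℤ) : ℕ → ℤ → ℝ
  | 0, k => if b ≤ k then 1 else 0
  | (t + 1), k => if b ≤ k then 1 else x * Pop w (GF w x b t) k

section
variable (w : ℤ → ℝ) (x : ℝ) (hw : ∀ k, 0 ≤ w k ∧ w k ≤ 1) (hx0 : 0 < x) (hx1 : x ≤ 1)
include hw hx0 hx1

theorem GF_rng (b : ℤ) (t : ℕ) : ∀ k, 0 ≤ GF w x b t k ∧ GF w x b t k ≤ 1 := by
  induction t with
  | zero => intro k; simp only [GF]; split_ifs <;> norm_num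
  | succ t ih =>
    intro k
    simp only [GF]
    split_ifs
    · norm_num
    · have h0 : 0 ≤ Pop w (GF w x b t) k := by
        have := pop_mono' w (fun _ => 0) (GF w x b t) k (hw k) (ih _).1 (ih _).1
        simpa [Pop] using this
      have h1 : Pop w (GF w x b t) k ≤ 1 := by
        have := pop_mono' w (GF w x b t) (fun _ => 1) k (hw k) (ih _).2 (ih _).2
        simpa [Pop] using this
      constructor
      · positivity
      · nlinarith

theorem hit_GF (b : ℤ) (t : ℕ) : ∀ k, x ^ t * Hit w b t k ≤ GF w x b t k := by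
  induction t with
  | zero => intro k; simp only [GF, Hit]; split_ifs <;> norm_num
  | succ t ih =>
    intro k
    simp only [GF, Hit]
    split_ifs
    · rw [mul_one]; exact pow_le_one₀ hx0.le hx1
    · have e : x ^ (t + 1) * Pop w (Hit w b t) k = x * Pop w (fun k => x ^ t * Hit w b t k) k := by
        unfold Pop; ring
      rw [e]
      exact mul_le_mul_of_nonneg_left (pop_mono' w _ _ k (hw k) (ih _) (ih _)) hx0.le

theorem GF_mul (b b' : ℤ) (hb : b ≤ b') (S : ℝ) (h : ∀ r, GF w x b' r b ≤ S)
    (t : ℕ) : ∀ k, k ≤ b → GF w x b' t k ≤ GF w x b t k * S := by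
  induction t with
  | zero =>
    intro k hk
    rcases hk.lt_or_eq with h1 | h1
    · have h2 : ¬ b' ≤ k := by omega
      have h3 : ¬ b ≤ k := by omega
      simp [GF, h2, h3]
    · subst h1
      have := h 0
      simpa [GF] using this
  | succ t ih =>
    intro k hk
    rcases hk.lt_or_eq with h1 | h1
    · have h2 : ¬ b' ≤ k := by omega
      have h3 : ¬ b ≤ k := by omega
      simp only [GF, h2, h3, if_false]
      have e : x * Pop w (GF w x b t) k * S = x * Pop w (fun k => GF w x b t k * S) k := by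
        unfold Pop; ring
      rw [e]
      exact mul_le_mul_of_nonneg_left
        (pop_mono' w _ _ k (hw k) (ih _ (by omega)) (ih _ (by omega))) hx0.le
    · subst h1
      have := h (t + 1)
      have h4 : GF w x k (t + 1) k = 1 := by simp [GF]
      rw [h4, one_mul]; exact this

theorem GF_hit (h : S_Hit) (d : ℤ) (s : ℕ) : ∀ (t : ℕ) (k : ℤ),
    GF w x d t k ≤ Hit w d s k + x ^ (s + 1) * (1 - Hit w d s k) := by
  induction s with
  | zero =>
    intro t k
    have h1 := GF_rng w x hw hx0 hx1 d t k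
    by_cases hk : d ≤ k
    · simp only [Hit, hk, if_true]; linarith [h1.2]
    · simp only [Hit, hk, if_false]
      cases t with
      | zero => simp [GF, hk]; exact hx0.le
      | succ t =>
        simp only [GF, hk, if_false]
        have h2 : Pop w (GF w x d t) k ≤ 1 := by
          have := pop_mono' w (GF w x d t) (fun _ => 1) k (hw k)
            (GF_rng w x hw hx0 hx1 d t _).2 (GF_rng w x hw hx0 hx1 d t _).2
          simpa [Pop] using this
        have h3 := mul_le_mul_of_nonneg_left h2 hx0.le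
        have h4 : x ^ (0 + 1) = x := by ring
        rw [h4]; linarith
  | succ s ih =>
    intro t k
    have h1 := GF_rng w x hw hx0 hx1 d t k
    by_cases hk : d ≤ k
    · simp only [Hit, hk, if_true]; linarith [h1.2]
    · have hH := h.h0 w hw d (s + 1) k
      cases t with
      | zero =>
        have : GF w x d 0 k = 0 := by simp [GF, hk]
        rw [this]
        have h3 : 0 ≤ x ^ (s + 1 + 1) * (1 - Hit w d (s + 1) k) :=
          mul_nonneg (by positivity) (by linarith [hH.2])
        linarith [hH.1]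
      | succ t =>
        have e1 : GF w x d (t + 1) k = x * Pop w (GF w x d t) k := by simp [GF, hk]
        have e2 : Hit w d (s + 1) k = Pop w (Hit w d s) k := by simp [Hit, hk]
        have h3 := pop_mono' w (GF w x d t)
          (fun k => Hit w d s k + x ^ (s + 1) * (1 - Hit w d s k)) k (hw k) (ih t _) (ih t _)
        have e3 : Pop w (fun k => Hit w d s k + x ^ (s + 1) * (1 - Hit w d s k)) k =
            Pop w (Hit w d s) k + x ^ (s + 1) * (1 - Pop w (Hit w d s) k) := by
          unfold Pop; ring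
        rw [e3, ← e2] at h3
        rw [e1]
        have h4 := mul_le_mul_of_nonneg_left h3 hx0.le
        have h5 : x * Hit w d (s + 1) k ≤ Hit w d (s + 1) k := by
          nlinarith [hH.1]
        have e4 : x * (Hit w d (s + 1) k + x ^ (s + 1) * (1 - Hit w d (s + 1) k)) =
          x * Hit w d (s + 1) k + x ^ (s + 1 + 1) * (1 - Hit w d (s + 1) k) := by ring
        rw [e4] at h4
        linarith

end

theorem slow (h : S_Hit) (hr : S_Rev) : S_Slow := by
  intro κ w V hE D n a hD ha T
  have hκ := hE.pos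
  have hw : ∀ k, 0 ≤ w k ∧ w k ≤ 1 := fun k => by
    have h1 := hE.lo k
    have h2 := hE.hi k
    constructor <;> linarith
  have hDe : 4 ≤ κ * Real.exp D := by
    rw [div_le_iff₀ hκ] at hD; linarith
  set s0 : ℕ := ⌊κ * Real.exp D / 2⌋₊ with hs0
  have hs1 : (s0 : ℝ) ≤ κ * Real.exp D / 2 := Nat.floor_le (by linarith)
  have hs2 : κ * Real.exp D / 2 < s0 + 1 := Nat.lt_floor_add_one _
  set θ : ℝ := 1 / ((s0 : ℝ) + 1) with hθ
  have hs3 : (0 : ℝ) < (s0 : ℝ) + 1 := by positivity
  have hθ0 : 0 < θ := by positivity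
  set x : ℝ := Real.exp (-θ) with hx
  have hx0 : 0 < x := Real.exp_pos _
  have hx1 : x ≤ 1 := Real.exp_le_one_iff.2 (by linarith)
  have hθ2 : θ ≤ 2 * Real.exp (-D) / κ := by
    rw [hθ, Real.exp_neg, div_le_div_iff₀ hs3 hκ]
    have : 0 < Real.exp D := Real.exp_pos D
    have h1 : 2 * (Real.exp D)⁻¹ * ((s0 : ℝ) + 1) = 2 * ((s0 : ℝ) + 1) / Real.exp D := by
      field_simp
    rw [h1, le_div_iff₀ this]
    linarith
  have hxs : x ^ (s0 + 1) = Real.exp (-1) := by
    rw [hx, ← Real.exp_nat_mul]
    congr 1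
    rw [hθ]; push_cast; field_simp
  set y : ℝ := Real.exp (-(1 / 4)) with hy
  have hy0 : 0 < y := Real.exp_pos _
  -- one climb
  have hcl : ∀ (c d : ℤ), c < d → D ≤ V d - V c → ∀ r, GF w x d r c ≤ y := by
    intro c d hcd hV r
    have h1 := GF_hit w x hw hx0 hx1 h d s0 r c
    have h2 := h.h6 w hw d s0 c hcd.le
    have h3 : ∑ s ∈ range (s0 + 1), Ex w s (one d) c ≤ 1 / 2 := by
      rw [sum_range_succ']
      have e0 : Ex w 0 (one d) c = 0 := by
        have : c ≠ d := by omega
        simp [Ex, one, this]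
      rw [e0, add_zero]
      have h4 : ∀ s ∈ range s0, Ex w (s + 1) (one d) c ≤ (1 / κ) * Real.exp (-D) := by
        intro s _
        refine (hr κ w V hE (s + 1) c d).trans ?_
        refine mul_le_mul_of_nonneg_left ?_ (by positivity)
        exact Real.exp_le_exp.2 (by linarith)
      refine (sum_le_sum h4).trans ?_
      rw [sum_const, card_range, nsmul_eq_mul, Real.exp_neg]
      have : 0 < Real.exp D := Real.exp_pos D
      have h5 : (s0 : ℝ) * (1 / κ * (Real.exp D)⁻¹) = s0 / (κ * Real.exp D) := by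
        field_simp
      rw [h5, div_le_iff₀ (by positivity)]
      linarith
    have h6 : Hit w d s0 c ≤ 1 / 2 := h2.trans h3
    have h7 := (h.h0 w hw d s0 c).1
    rw [hxs] at h1
    have h8 : Real.exp (-1) ≤ 1 / 2 := by
      rw [Real.exp_neg]
      have : (2 : ℝ) ≤ Real.exp 1 := by linarith [Real.add_one_le_exp (1 : ℝ)]
      have := inv_anti₀ (by norm_num : (0 : ℝ) < 2) this
      linarith
    have h9 : 3 / 4 ≤ y := by
      rw [hy]
      linarith [Real.add_one_le_exp (-(1 / 4) : ℝ)]
    have h10 : Real.exp (-1) * (1 - Hit w d s0 c) ≤ 1 / 2 * (1 - Hit w d s0 c) :=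
      mul_le_mul_of_nonneg_right h8 (by linarith)
    linarith
  -- one segment
  have hseg : ∀ j < n, ∀ r, GF w x (a (j + 1)) r (a j) ≤ y := by
    intro j hj r
    obtain ⟨c, d, hac, hcd, hda, hV⟩ := ha j hj
    have h1 : ∀ r, GF w x (a (j + 1)) r c ≤ y := by
      intro r
      have := GF_mul w x hw hx0 hx1 d (a (j + 1)) hda 1
        (fun r => (GF_rng w x hw hx0 hx1 _ r _).2) r c hcd.le
      rw [mul_one] at this
      exact this.trans (hcl c d hcd hV r)
    have h2 := GF_mul w x hw hx0 hx1 c (a (j + 1)) (by omega) y h1 r (a j) hac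
    have h3 := (GF_rng w x hw hx0 hx1 c r (a j)).2
    nlinarith
  have hmono : ∀ m ≤ n, a 0 ≤ a m := by
    intro m
    induction m with
    | zero => intro _; exact le_rfl
    | succ m ih =>
      intro hm
      obtain ⟨c, d, hac, hcd, hda, hV⟩ := ha m (by omega)
      have := ih (by omega)
      omega
  have hall : ∀ m ≤ n, ∀ r, GF w x (a m) r (a 0) ≤ y ^ m := by
    intro m
    induction m with
    | zero => intro _ r; simpa using (GF_rng w x hw hx0 hx1 (a 0) r (a 0)).2
    | succ m ih =>
      intro hm r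
      have hle : a m ≤ a (m + 1) := by
        obtain ⟨c, d, hac, hcd, hda, hV⟩ := ha m (by omega)
        omega
      have h1 := GF_mul w x hw hx0 hx1 (a m) (a (m + 1)) hle y
        (hseg m (by omega)) r (a 0) (hmono m (by omega))
      have h2 := ih (by omega) r
      rw [pow_succ]
      exact h1.trans (mul_le_mul_of_nonneg_right h2 hy0.le)
  have h1 := hit_GF w x hw hx0 hx1 (a n) T (a 0)
  have h2 := hall n le_rfl T
  have h3 : x ^ T * Hit w (a n) T (a 0) ≤ y ^ n := h1.trans h2
  have hxT : x ^ T = Real.exp (-(θ * T)) := by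
    rw [hx, ← Real.exp_nat_mul]; congr 1; ring
  have hyn : y ^ n = Real.exp (-(n / 4)) := by
    rw [hy, ← Real.exp_nat_mul]; congr 1; ring
  rw [hxT, hyn] at h3
  have h4 : Hit w (a n) T (a 0) = Real.exp (θ * T) * (Real.exp (-(θ * T)) * Hit w (a n) T (a 0)) := by
    rw [← mul_assoc, ← Real.exp_add]
    simp
  rw [h4]
  refine (mul_le_mul_of_nonneg_left h3 (Real.exp_pos _).le).trans ?_
  rw [← Real.exp_add]
  refine Real.exp_le_exp.2 ?_
  have h5 : θ * T ≤ 2 * Real.exp (-D) / κ * T := mul_le_mul_of_nonneg_right hθ2 (Nat.cast_nonneg T)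
  have h6 : 2 * Real.exp (-D) / κ * T ≤ 4 * T * Real.exp (-D) / κ := by
    have : 0 ≤ 2 * Real.exp (-D) / κ * T := by positivity
    have e : 4 * T * Real.exp (-D) / κ = 2 * (2 * Real.exp (-D) / κ * T) := by ring
    rw [e]; linarith
  linarith

end Q63.LV
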