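import Pool.Agent.Q289.LV.Stm
import Pool.Agent.Q63.LV.Slow

/-! Project LV (MP_545af4_pr, helper289), job HIT: elementary facts, by induction on the time. -/

open Finset

namespace Q63.LV.H

open Q289.LV

theorem pop_nn (w f : ℤ → ℝ) (k : ℤ) (hw : 0 ≤ w k ∧ w k ≤ 1) (h1 : 0 ≤ f (k + 1))
    (h2 : 0 ≤ f (k - 1)) : 0 ≤ Pop w f k := by
  have := pop_mono' w (fun _ => 0) f k hw h1 h2
  simpa [Pop] using this

theorem pop_le (w f : ℤ → ℝ) (k : ℤ) (c : ℝ) (hw : 0 ≤ w k ∧ w k ≤ 1) (h1 : f (k + 1) ≤ c)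
    (h2 : f (k - 1) ≤ c) : Pop w f k ≤ c := by
  have := pop_mono' w f (fun _ => c) k hw h1 h2
  have e : Pop w (fun _ => c) k = c := by unfold Pop; ring
  rwa [e] at this

theorem h0 (w : ℤ → ℝ) (hw : ∀ k, 0 ≤ w k ∧ w k ≤ 1) (b : ℤ) (t : ℕ) : ∀ k,
    0 ≤ Hit w b t k ∧ Hit w b t k ≤ 1 := by
  induction t with
  | zero => intro k; simp only [Hit]; split_ifs <;> norm_num
  | succ t ih =>
    intro k
    simp only [Hit]
    split_ifs
    · norm_num
    · exact ⟨pop_nn w _ k (hw k) (ih _).1 (ih _).1, pop_le w _ k 1 (hw k) (ih _).2 (ih _).2⟩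

theorem hmt (w : ℤ → ℝ) (hw : ∀ k, 0 ≤ w k ∧ w k ≤ 1) (b : ℤ) (t : ℕ) : ∀ k,
    Hit w b t k ≤ Hit w b (t + 1) k := by
  induction t with
  | zero =>
    intro k
    by_cases h : b ≤ k
    · simp [Hit, h]
    · have e1 : Hit w b 0 k = 0 := by simp [Hit, h]
      rw [e1]
      exact (h0 w hw b 1 k).1
  | succ t ih =>
    intro k
    by_cases h : b ≤ k
    · simp [Hit, h]
    · have e1 : Hit w b (t + 1) k = Pop w (Hit w b t) k := by simp [Hit, h]
      have e2 : Hit w b (t + 1 + 1) k = Pop w (Hit w b (t + 1)) k := by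
        rw [Hit]; simp [h]
      rw [e1, e2]
      exact pop_mono' w _ _ k (hw k) (ih _) (ih _)

theorem h3s (w : ℤ → ℝ) (hw : ∀ k, 0 ≤ w k ∧ w k ≤ 1) (b : ℤ) (t : ℕ) : ∀ k,
    Hit w b t k ≤ Hit w b t (k + 1) := by
  induction t with
  | zero =>
    intro k
    by_cases h : b ≤ k
    · have h2 : b ≤ k + 1 := by omega
      simp [Hit, h, h2]
    · have e1 : Hit w b 0 k = 0 := by simp [Hit, h]
      rw [e1]
      exact (h0 w hw b 0 (k + 1)).1
  | succ t ih =>
    intro k
    by_cases h : b ≤ k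
    · have h2 : b ≤ k + 1 := by omega
      simp [Hit, h, h2]
    · have e1 : Hit w b (t + 1) k = Pop w (Hit w b t) k := by simp [Hit, h]
      rw [e1]
      have h2 : Hit w b t (k - 1) ≤ Hit w b t (k + 1) := by
        have := ih (k - 1)
        have h4 := ih k
        have e : k - 1 + 1 = k := by ring
        rw [e] at this
        exact this.trans h4
      exact (pop_le w _ k _ (hw k) le_rfl h2).trans (hmt w hw b t (k + 1))

theorem h3 (w : ℤ → ℝ) (hw : ∀ k, 0 ≤ w k ∧ w k ≤ 1) (b : ℤ) (t : ℕ) (k k' : ℤ) (h : k ≤ k') :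
    Hit w b t k ≤ Hit w b t k' := by
  induction k', h using Int.leInduction with
  | base => exact le_rfl
  | succ n _ ih => exact ih.trans (h3s w hw b t n)

theorem h4 (w : ℤ → ℝ) (hw : ∀ k, 0 ≤ w k ∧ w k ≤ 1) (b b' : ℤ) (hb : b ≤ b') (t : ℕ) : ∀ k,
    Hit w b' t k ≤ Hit w b t k := by
  induction t with
  | zero =>
    intro k
    by_cases h : b ≤ k
    · have : Hit w b 0 k = 1 := by simp [Hit, h]
      rw [this]; exact (h0 w hw b' 0 k).2
    · have h2 : ¬ b' ≤ k := by omega
      simp [Hit, h, h2]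
  | succ t ih =>
    intro k
    by_cases h : b ≤ k
    · have : Hit w b (t + 1) k = 1 := by simp [Hit, h]
      rw [this]; exact (h0 w hw b' (t + 1) k).2
    · have h2 : ¬ b' ≤ k := by omega
      simp only [Hit, h, h2, if_false]
      exact pop_mono' w _ _ k (hw k) (ih _) (ih _)

theorem h15 (w : ℤ → ℝ) (f g : ℤ → ℝ) (c : ℝ) (t : ℕ) : ∀ k : ℤ,
    Ex w t (fun b => f b + c * g b) k = Ex w t f k + c * Ex w t g k := by
  induction t with
  | zero => intro k; rfl
  | succ t ih =>
    intro k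
    simp only [Ex, Pop]
    rw [ih, ih]; ring

theorem h16 (w : ℤ → ℝ) (c : ℝ) (t : ℕ) : ∀ k : ℤ, Ex w t (fun _ => c) k = c := by
  induction t with
  | zero => intro k; rfl
  | succ t ih =>
    intro k
    simp only [Ex, Pop]
    rw [ih, ih]; ring

theorem h14 (w : ℤ → ℝ) (hw : ∀ k, 0 ≤ w k ∧ w k ≤ 1) (f g : ℤ → ℝ) (t : ℕ) : ∀ (k : ℤ),
    (∀ b, k - t ≤ b → b ≤ k + t → f b ≤ g b) → Ex w t f k ≤ Ex w t g k := by
  induction t with
  | zero => intro k h; exact h k (by simp) (by simp)
  | succ t ih =>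
    intro k h
    simp only [Ex]
    refine pop_mono' w _ _ k (hw k) (ih _ fun b hb1 hb2 => h b ?_ ?_)
      (ih _ fun b hb1 hb2 => h b ?_ ?_)
    all_goals push_cast; omega

theorem h5 (w : ℤ → ℝ) (hw : ∀ k, 0 ≤ w k ∧ w k ≤ 1) (b : ℤ) (t : ℕ) : ∀ k,
    Ex w t (geI b) k ≤ Hit w b t k := by
  induction t with
  | zero => intro k; exact le_rfl
  | succ t ih =>
    intro k
    by_cases h : b ≤ k
    · have : Hit w b (t + 1) k = 1 := by simp [Hit, h]
      rw [this]
      have h2 := h14 w hw (geI b) (fun _ => 1) (t + 1) k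
        (fun c _ _ => by unfold geI; split_ifs <;> norm_num)
      rwa [h16] at h2
    · simp only [Hit, h, if_false, Ex]
      exact pop_mono' w _ _ k (hw k) (ih _) (ih _)

theorem exone_nn (w : ℤ → ℝ) (hw : ∀ k, 0 ≤ w k ∧ w k ≤ 1) (b : ℤ) (t : ℕ) (k : ℤ) :
    0 ≤ Ex w t (one b) k := by
  have := h14 w hw (fun _ => 0) (one b) t k (fun c _ _ => by unfold one; split_ifs <;> norm_num)
  rw [h16] at this; exact this

theorem h6 (w : ℤ → ℝ) (hw : ∀ k, 0 ≤ w k ∧ w k ≤ 1) (b : ℤ) (t : ℕ) : ∀ k, k ≤ b →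
    Hit w b t k ≤ ∑ s ∈ range (t + 1), Ex w s (one b) k := by
  induction t with
  | zero =>
    intro k hk
    by_cases h : b ≤ k
    · have : k = b := le_antisymm hk h
      simp [Hit, Ex, one, this]
    · have : k ≠ b := by omega
      simp [Hit, Ex, one, h, this]
  | succ t ih =>
    intro k hk
    by_cases h : b ≤ k
    · have e : k = b := le_antisymm hk h
      have h1 : Hit w b (t + 1) k = 1 := by simp [Hit, h]
      rw [h1, sum_range_succ']
      have h2 : Ex w 0 (one b) k = 1 := by simp [Ex, one, e]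
      rw [h2]
      have h3 : 0 ≤ ∑ s ∈ range (t + 1), Ex w (s + 1) (one b) k :=
        sum_nonneg fun s _ => exone_nn w hw b (s + 1) k
      linarith
    · have e1 : Hit w b (t + 1) k = Pop w (Hit w b t) k := by simp [Hit, h]
      rw [e1]
      have h1 := pop_mono' w (Hit w b t) (fun k => ∑ s ∈ range (t + 1), Ex w s (one b) k) k (hw k)
        (ih _ (by omega)) (ih _ (by omega))
      refine h1.trans ?_
      have e2 : Pop w (fun k => ∑ s ∈ range (t + 1), Ex w s (one b) k) k =
          ∑ s ∈ range (t + 1), Ex w (s + 1) (one b) k := by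
        simp only [Pop, Ex]
        rw [mul_sum, mul_sum, ← sum_add_distrib]
      rw [e2, sum_range_succ' _ (t + 1)]
      have := exone_nn w hw b 0 k
      linarith

theorem h18 (w : ℤ → ℝ) (f : ℤ → ℝ) (t : ℕ) : ∀ (k : ℤ),
    Ex (refl w) t f k = Ex w t (fun b => f (-b)) (-k) := by
  induction t with
  | zero => intro k; simp [Ex]
  | succ t ih =>
    intro k
    simp only [Ex, Pop]
    rw [ih, ih]
    have e1 : -(k + 1) = -k - 1 := by ring
    have e2 : -(k - 1) = -k + 1 := by ring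
    rw [e1, e2]
    unfold Q289.LV.refl
    ring

theorem hitL_eq (w : ℤ → ℝ) (a : ℤ) (t : ℕ) : ∀ (k : ℤ),
    HitL w a t k = Hit (refl w) (-a) t (-k) := by
  induction t with
  | zero =>
    intro k
    by_cases h : k ≤ a
    · have : -a ≤ -k := by omega
      simp [Hit, HitL, h]
    · have : ¬ -a ≤ -k := by omega
      simp [Hit, HitL, h]
  | succ t ih =>
    intro k
    by_cases h : k ≤ a
    · have : -a ≤ -k := by omega
      simp [Hit, HitL, h]
    · have h2 : ¬ -a ≤ -k := by omega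
      simp only [Hit, HitL, h, h2, if_false, Pop]
      rw [ih, ih]
      have e1 : -(k + 1) = -k - 1 := by ring
      have e2 : -(k - 1) = -k + 1 := by ring
      rw [e1, e2]
      unfold Q289.LV.refl
      rw [neg_neg]
      ring

theorem refl_rng (w : ℤ → ℝ) (hw : ∀ k, 0 ≤ w k ∧ w k ≤ 1) : ∀ k, 0 ≤ refl w k ∧ refl w k ≤ 1 := by
  intro k
  have := hw (-k)
  unfold Q289.LV.refl
  constructor <;> linarith

theorem l5 (w : ℤ → ℝ) (hw : ∀ k, 0 ≤ w k ∧ w k ≤ 1) (a : ℤ) (t : ℕ) (k : ℤ) :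
    Ex w t (leI a) k ≤ HitL w a t k := by
  rw [hitL_eq]
  have h1 := h5 (refl w) (refl_rng w hw) (-a) t (-k)
  rw [h18] at h1
  have e : (fun b => geI (-a) (-b)) = leI a := by
    funext b
    unfold geI leI
    have : (-a ≤ -b) ↔ (b ≤ a) := by omega
    simp only [this]
  rw [e, neg_neg] at h1
  exact h1

theorem l6 (w : ℤ → ℝ) (hw : ∀ k, 0 ≤ w k ∧ w k ≤ 1) (a : ℤ) (t : ℕ) (k : ℤ) (hk : a ≤ k) :
    HitL w a t k ≤ ∑ s ∈ range (t + 1), Ex w s (one a) k := by
  rw [hitL_eq]
  have h1 := h6 (refl w) (refl_rng w hw) (-a) t (-k) (by omega)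
  refine h1.trans (le_of_eq (sum_congr rfl fun s _ => ?_))
  rw [h18]
  have e : (fun b => one (-a) (-b)) = one a := by
    funext b
    unfold one
    have : (-b = -a) ↔ (b = a) := by omega
    simp only [this]
  rw [e, neg_neg]

theorem h8 (w : ℤ → ℝ) (hw : ∀ k, 0 ≤ w k ∧ w k ≤ 1) (m m' : ℤ) (t : ℕ) : ∀ (k : ℤ), k ≤ m' →
    Ex w t (leI m) k ≤ (1 - Hit w m' t k) + HitL w m t m' := by
  induction t with
  | zero =>
    intro k hk
    by_cases h : m' ≤ k
    · have e : k = m' := le_antisymm hk h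
      have e1 : Hit w m' 0 k = 1 := by simp [Hit, h]
      rw [e1, e]
      have := l5 w hw m 0 m'
      linarith
    · have e1 : Hit w m' 0 k = 0 := by simp [Hit, h]
      have h1 : 0 ≤ HitL w m 0 m' := by rw [hitL_eq]; exact (h0 _ (refl_rng w hw) _ _ _).1
      have h2 : Ex w 0 (leI m) k ≤ 1 := by simp only [Ex, leI]; split_ifs <;> norm_num
      rw [e1]; linarith
  | succ t ih =>
    intro k hk
    by_cases h : m' ≤ k
    · have e : k = m' := le_antisymm hk h
      have e1 : Hit w m' (t + 1) k = 1 := by simp [Hit, h]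
      rw [e1, e]
      have := l5 w hw m (t + 1) m'
      linarith
    · have e1 : Hit w m' (t + 1) k = Pop w (Hit w m' t) k := by simp [Hit, h]
      have h1 := pop_mono' w (Ex w t (leI m)) (fun k => (1 - Hit w m' t k) + HitL w m t m') k (hw k)
        (ih _ (by omega)) (ih _ (by omega))
      have e2 : Pop w (fun k => (1 - Hit w m' t k) + HitL w m t m') k =
          (1 - Pop w (Hit w m' t) k) + HitL w m t m' := by
        unfold Pop; ring
      rw [e2] at h1
      have h2 : HitL w m t m' ≤ HitL w m (t + 1) m' := by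
        rw [hitL_eq, hitL_eq]; exact hmt _ (refl_rng w hw) _ _ _
      rw [e1]
      simp only [Ex]
      linarith

theorem h9 (w v : ℤ → ℝ) (hw : ∀ k, 0 ≤ w k ∧ w k ≤ 1) (L : ℤ) (hv1 : ∀ k, k ≤ -L → v k = 1)
    (hv2 : ∀ k, -L < k → v k = w k) (b : ℤ) (t : ℕ) : ∀ (k : ℤ),
    |Hit w b t k - Hit v b t k| ≤ HitL w (-L) t k := by
  have hv : ∀ k, 0 ≤ v k ∧ v k ≤ 1 := by
    intro k
    by_cases h : k ≤ -L
    · rw [hv1 k h]; norm_num
    · rw [hv2 k (by omega)]; exact hw k
  have hL : ∀ t k, 0 ≤ HitL w (-L) t k := fun t k => by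
    rw [hitL_eq]; exact (h0 _ (refl_rng w hw) _ _ _).1
  induction t with
  | zero =>
    intro k
    have : Hit w b 0 k - Hit v b 0 k = 0 := by simp [Hit]
    rw [this, abs_zero]
    exact hL 0 k
  | succ t ih =>
    intro k
    by_cases h : b ≤ k
    · have : Hit w b (t + 1) k - Hit v b (t + 1) k = 0 := by simp [Hit, h]
      rw [this, abs_zero]
      exact hL (t + 1) k
    · by_cases hk : k ≤ -L
      · have e : HitL w (-L) (t + 1) k = 1 := by simp [HitL, hk]
        rw [e, abs_le]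
        have h1 := h0 w hw b (t + 1) k
        have h2 := h0 v hv b (t + 1) k
        constructor <;> linarith
      · have e1 : HitL w (-L) (t + 1) k = Pop w (HitL w (-L) t) k := by simp [HitL, hk]
        have e2 : Hit w b (t + 1) k = Pop w (Hit w b t) k := by simp [Hit, h]
        have e3 : Hit v b (t + 1) k = Pop w (Hit v b t) k := by
          simp only [Hit, h, if_false, Pop, hv2 k (by omega)]
        rw [e1, e2, e3, abs_le]
        have i1 := abs_le.1 (ih (k + 1))
        have i2 := abs_le.1 (ih (k - 1))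
        constructor
        · have h1 := pop_mono' w (fun k => Hit v b t k - HitL w (-L) t k) (Hit w b t) k (hw k)
            (by linarith) (by linarith)
          have e4 : Pop w (fun k => Hit v b t k - HitL w (-L) t k) k =
              Pop w (Hit v b t) k - Pop w (HitL w (-L) t) k := by unfold Pop; ring
          rw [e4] at h1
          linarith
        · have h1 := pop_mono' w (Hit w b t) (fun k => Hit v b t k + HitL w (-L) t k) k (hw k)
            (by linarith) (by linarith)
          have e4 : Pop w (fun k => Hit v b t k + HitL w (-L) t k) k =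
              Pop w (Hit v b t) k + Pop w (HitL w (-L) t) k := by unfold Pop; ring
          rw [e4] at h1
          linarith

theorem h12 (w : ℤ → ℝ) (b : ℤ) (t : ℕ) : ∀ (k : ℤ), k + t < b → Ex w t (geI b) k = 0 := by
  induction t with
  | zero =>
    intro k hk
    have : ¬ b ≤ k := by simp at hk; omega
    simp [Ex, geI, this]
  | succ t ih =>
    intro k hk
    push_cast at hk
    simp only [Ex, Pop]
    rw [ih _ (by omega), ih _ (by omega)]; ring

theorem supp (w : ℤ → ℝ) (b : ℤ) (t : ℕ) : ∀ (k : ℤ), (b < k - t ∨ k + t < b) →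
    Ex w t (one b) k = 0 := by
  induction t with
  | zero =>
    intro k hk
    have : ¬ k = b := by simp at hk; omega
    simp [Ex, one, this]
  | succ t ih =>
    intro k hk
    push_cast at hk
    simp only [Ex, Pop]
    rw [ih _ (by omega), ih _ (by omega)]; ring

theorem h13 (w : ℤ → ℝ) (f : ℤ → ℝ) (t : ℕ) : ∀ (k : ℤ),
    Ex w t f k = ∑ b ∈ Icc (k - t) (k + t), Ex w t (one b) k * f b := by
  induction t with
  | zero =>
    intro k
    simp [Ex, one]
  | succ t ih =>
    intro k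
    have e1 : ∀ k' : ℤ, (k' = k + 1 ∨ k' = k - 1) →
        ∑ b ∈ Icc (k' - t) (k' + t), Ex w t (one b) k' * f b =
        ∑ b ∈ Icc (k - (t + 1 : ℕ)) (k + (t + 1 : ℕ)), Ex w t (one b) k' * f b := by
      intro k' hk'
      apply sum_subset
      · intro b hb
        rw [mem_Icc] at hb ⊢
        push_cast
        omega
      · intro b _ hb
        rw [mem_Icc] at hb
        rw [supp w b t k' (by omega), zero_mul]
    have e2 : Ex w (t + 1) f k = w k * Ex w t f (k + 1) + (1 - w k) * Ex w t f (k - 1) := rfl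
    rw [e2, ih, ih, e1 (k + 1) (Or.inl rfl), e1 (k - 1) (Or.inr rfl), mul_sum, mul_sum,
      ← sum_add_distrib]
    refine sum_congr rfl fun b _ => ?_
    simp only [Ex, Pop]
    ring

theorem h17 (w : ℤ → ℝ) (f : ℤ → ℝ) (s t : ℕ) : ∀ (k : ℤ),
    Ex w (s + t) f k = Ex w s (Ex w t f) k := by
  induction s with
  | zero => intro k; simp [Ex]
  | succ s ih =>
    intro k
    have e : s + 1 + t = (s + t) + 1 := by ring
    rw [e]
    simp only [Ex, Pop]
    rw [ih, ih]

theorem hit : S_Hit where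
  h0 := fun w hw b t k => h0 w hw b t k
  l0 := fun w hw a t k => by rw [hitL_eq]; exact h0 _ (refl_rng w hw) _ _ _
  h3 := fun w hw b t k k' h => h3 w hw b t k k' h
  l3 := fun w hw a t k k' h => by
    rw [hitL_eq, hitL_eq]; exact h3 _ (refl_rng w hw) _ _ _ _ (by omega)
  h4 := fun w hw b b' t k h => h4 w hw b b' h t k
  l4 := fun w hw a a' t k h => by
    rw [hitL_eq, hitL_eq]; exact h4 _ (refl_rng w hw) _ _ (by omega) _ _
  h5 := fun w hw b t k => h5 w hw b t k
  l5 := fun w hw a t k => l5 w hw a t k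
  h6 := fun w hw b t k hk => h6 w hw b t k hk
  l6 := fun w hw a t k hk => l6 w hw a t k hk
  h8 := fun w hw m m' t k _ hk => h8 w hw m m' t k hk
  h9 := fun w v hw L hv1 hv2 b t k => h9 w v hw L hv1 hv2 b t k
  h12 := fun w b t k hk => h12 w b t k hk
  h13 := fun w f t k => h13 w f t k
  h14 := fun w hw f g t k h => h14 w hw f g t k h
  h15 := fun w f g c t k => h15 w f g c t k
  h16 := fun w c t k => h16 w c t k
  h17 := fun w f s t k => h17 w f s t k
  h18 := fun w f t k => h18 w f t k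

end Q63.LV.H
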