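import Pool.Agent.Q63.LV.Rev
import Pool.Agent.Q63.LV.Asy

/-! Project LV (MP_545af4_pr, helper289), job INT: interpolation between the times `j^30`. -/

open Finset Filter

namespace Q63.LV

open Q289.LV

theorem ex_one_succ (w : ℤ → ℝ) (t : ℕ) (a b : ℤ) :
    Ex w (t + 1) (one b) a = w (b - 1) * Ex w t (one (b - 1)) a +
        (1 - w (b + 1)) * Ex w t (one (b + 1)) a := by
  rw [H.h17 w (one b) t 1 a]
  have e2 : Ex w 1 (one b) = fun k => (fun k => 0 + w (b - 1) * one (b - 1) k) k +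
      (1 - w (b + 1)) * one (b + 1) k := by
    funext k
    simp only [Ex, Pop, one]
    by_cases c1 : k + 1 = b
    · have c2 : k = b - 1 := by omega
      have c3 : ¬ k - 1 = b := by omega
      have c4 : ¬ k = b + 1 := by omega
      simp only [c1, c3, c4, if_true, if_false]
      rw [if_pos c2, c2]; ring
    · by_cases c3 : k - 1 = b
      · have c2 : ¬ k = b - 1 := by omega
        have c4 : k = b + 1 := by omega
        simp only [c1, c3, c2, if_true, if_false]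
        rw [if_pos c4, c4]; ring
      · have c2 : ¬ k = b - 1 := by omega
        have c4 : ¬ k = b + 1 := by omega
        simp only [c1, c3, c2, c4, if_false]; ring
  rw [e2, H.h15, H.h15, H.h16]; ring

theorem law_eq (w : ℤ → ℝ) (t : ℕ) : ∀ k : ℤ, law w t k = Ex w t (one k) 0 := by
  induction t with
  | zero =>
    intro k
    by_cases h : k = 0
    · simp [law, Ex, one, h]
    · have h' : ¬ (0 : ℤ) = k := fun h' => h h'.symm
      simp [law, Ex, one, h, h']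
  | succ t ih =>
    intro k
    rw [law, ih, ih, ex_one_succ]

theorem tsum_law (w g : ℤ → ℝ) (t : ℕ) : ∑' k : ℤ, g k * law w t k = Ex w t g 0 := by
  rw [H.h13 w g t 0, tsum_eq_sum (s := Icc ((0 : ℤ) - t) (0 + t))]
  · refine sum_congr rfl fun b _ => ?_
    rw [law_eq, mul_comm]
  · intro b hb
    rw [mem_Icc] at hb
    rw [law_eq, H.supp w b t 0 (by omega), mul_zero]

theorem vr_le (w : ℤ → ℝ) (t : ℕ) (c : ℝ) :
    vr w t ≤ Ex w t (fun k => ((k : ℝ) - c) ^ 2) 0 := by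
  unfold vr
  rw [tsum_law w (fun k => (k : ℝ) ^ 2) t, tsum_law w (fun k => (k : ℝ)) t]
  have e : (fun k : ℤ => ((k : ℝ) - c) ^ 2) = fun k : ℤ => (fun k : ℤ => (fun k : ℤ => (k : ℝ) ^ 2) k +
      (-2 * c) * (fun k : ℤ => (k : ℝ)) k) k + c ^ 2 * (fun _ : ℤ => (1 : ℝ)) k := by
    funext k; ring
  rw [e, H.h15, H.h15, H.h16]
  nlinarith [sq_nonneg (Ex w t (fun k : ℤ => (k : ℝ)) 0 - c)]

theorem pow_diff (x : ℝ) (hx : 0 ≤ x) (n : ℕ) :
    (x + 1) ^ (n + 1) - x ^ (n + 1) ≤ (n + 1) * (x + 1) ^ n := by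
  induction n with
  | zero => simp
  | succ n ih =>
    have h1 : x ^ (n + 1) ≤ (x + 1) ^ (n + 1) := pow_le_pow_left₀ hx (by linarith) _
    have e : (x + 1) ^ (n + 1 + 1) - x ^ (n + 1 + 1) =
        (x + 1) * ((x + 1) ^ (n + 1) - x ^ (n + 1)) + x ^ (n + 1) := by ring
    rw [e]
    have h2 := mul_le_mul_of_nonneg_left ih (by linarith : 0 ≤ x + 1)
    have e2 : (x + 1) * ((n + 1) * (x + 1) ^ n) = (n + 1) * (x + 1) ^ (n + 1) := by ring
    rw [e2] at h2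
    push_cast
    linarith

theorem split_time (w : ℤ → ℝ) (hw : ∀ k, 0 ≤ w k ∧ w k ≤ 1) (N s : ℕ) (c : ℝ) :
    Ex w (N + s) (fun k => ((k : ℝ) - c) ^ 2) 0 ≤
      2 * Ex w N (fun k => ((k : ℝ) - c) ^ 2) 0 + 2 * (s : ℝ) ^ 2 := by
  rw [H.h17]
  have h1 : Ex w N (Ex w s fun k => ((k : ℝ) - c) ^ 2) 0 ≤
      Ex w N (fun b => (fun _ => 2 * (s : ℝ) ^ 2) b +
        2 * (fun b : ℤ => ((b : ℝ) - c) ^ 2) b) 0 := by
    apply H.h14 w hw
    intro b _ _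
    have h2 := H.h14 w hw (fun k : ℤ => ((k : ℝ) - c) ^ 2)
      (fun _ => 2 * (s : ℝ) ^ 2 + 2 * ((b : ℝ) - c) ^ 2) s b (fun k hk1 hk2 => by
        have h3 : (b : ℝ) - s ≤ k := by exact_mod_cast hk1
        have h4 : (k : ℝ) ≤ b + s := by exact_mod_cast hk2
        have h5 : ((k : ℝ) - b) ^ 2 ≤ (s : ℝ) ^ 2 := by nlinarith
        nlinarith [sq_nonneg (((k : ℝ) - b) - (b - c))])
    rw [H.h16] at h2
    exact h2
  refine h1.trans (le_of_eq ?_)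
  rw [H.h15, H.h16]; ring

theorem s2_bound (x T s : ℝ) (hx1 : 1 ≤ x) (hT : x ^ 30 ≤ T) (hs0 : 0 ≤ s)
    (hs : s ≤ (x + 1) ^ 30 - x ^ 30) : s ^ 2 ≤ (30 * 2 ^ 29) ^ 2 * T ^ (58 / 30 : ℝ) := by
  have hx0 : 0 ≤ x := by linarith
  have hT0 : 0 ≤ T := (pow_nonneg hx0 30).trans hT
  have h2 := pow_diff x hx0 29
  have e1 : (((29 : ℕ) : ℝ) + 1) = 30 := by norm_num
  rw [e1] at h2
  have h3 : (x + 1) ^ 29 ≤ (2 * x) ^ 29 :=
    pow_le_pow_left₀ (add_nonneg hx0 zero_le_one) (by rw [two_mul]; exact add_le_add_right hx1 x) 29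
  have h4 : x ^ 29 ≤ T ^ (29 / 30 : ℝ) := by
    have h5 : (x ^ 30) ^ (29 / 30 : ℝ) ≤ T ^ (29 / 30 : ℝ) :=
      Real.rpow_le_rpow (pow_nonneg hx0 30) hT (by norm_num)
    rw [← Real.rpow_natCast, ← Real.rpow_mul hx0] at h5
    have e2 : (((30 : ℕ) : ℝ) * (29 / 30)) = ((29 : ℕ) : ℝ) := by norm_num
    rw [e2, Real.rpow_natCast] at h5
    exact h5
  have h6 : s ≤ 30 * 2 ^ 29 * T ^ (29 / 30 : ℝ) := by
    calc s ≤ (x + 1) ^ 30 - x ^ 30 := hs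
      _ ≤ 30 * (x + 1) ^ 29 := h2
      _ ≤ 30 * (2 * x) ^ 29 := mul_le_mul_of_nonneg_left h3 (by norm_num)
      _ = 30 * 2 ^ 29 * x ^ 29 := by rw [mul_pow, mul_assoc]
      _ ≤ 30 * 2 ^ 29 * T ^ (29 / 30 : ℝ) := mul_le_mul_of_nonneg_left h4 (by norm_num)
  have h1 := pow_le_pow_left₀ hs0 h6 2
  rw [mul_pow] at h1
  refine h1.trans (le_of_eq ?_)
  congr 1
  rw [← Real.rpow_natCast, ← Real.rpow_mul hT0]
  norm_num

theorem exists_root (T J : ℕ) (hT1 : 1 ≤ T) (f3 : J ^ 30 + 1 ≤ T) :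
    ∃ j : ℕ, j ^ 30 ≤ T ∧ T < (j + 1) ^ 30 ∧ J ≤ j ∧ 1 ≤ j := by
  have hjT : ∀ i, i ^ 30 ≤ T → i ≤ T := fun i hi => (Nat.le_self_pow (by norm_num) i).trans hi
  refine ⟨Nat.findGreatest (fun j => j ^ 30 ≤ T) T, ?_, ?_, ?_, ?_⟩
  · exact Nat.findGreatest_spec (P := fun j => j ^ 30 ≤ T) (m := 0) (Nat.zero_le T) (by simp)
  · by_contra hcon
    rw [not_lt] at hcon
    have := Nat.le_findGreatest (P := fun j => j ^ 30 ≤ T) (hjT _ hcon) hcon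
    omega
  · exact Nat.le_findGreatest (P := fun j => j ^ 30 ≤ T) (hjT _ (by omega)) (by omega)
  · exact Nat.le_findGreatest (P := fun j => j ^ 30 ≤ T) hT1 (by simpa using hT1)

theorem int (_h : S_Hit) : S_Int := by
  intro w hw hG
  obtain ⟨J, hJ⟩ := eventually_atTop.1 hG
  have F1 := ev_rpow 1.985 1.99 36 (by norm_num)
  have F2 := ev_rpow (58 / 30) 1.99 (2 * (2 * (30 * 2 ^ 29) ^ 2)) (by norm_num)
  filter_upwards [F1, F2, eventually_ge_atTop (J ^ 30 + 1)] with T f1 f2 f3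
  have hT1 : 1 ≤ T := by omega
  obtain ⟨j, hj1, hj2, hj3, hj4⟩ := exists_root T J hT1 f3
  obtain ⟨c, hc⟩ := hJ j hj3
  obtain ⟨s, hs⟩ := Nat.exists_eq_add_of_le hj1
  refine (vr_le w T c).trans ?_
  have hsp : Ex w T (fun k => ((k : ℝ) - c) ^ 2) 0 ≤
      2 * Ex w (j ^ 30) (fun k => ((k : ℝ) - c) ^ 2) 0 + 2 * (s : ℝ) ^ 2 := by
    have := split_time w hw (j ^ 30) s c
    rw [← hs] at this
    exact this
  refine hsp.trans ?_
  have hx0 : (0 : ℝ) ≤ j := Nat.cast_nonneg j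
  have hx1 : (1 : ℝ) ≤ j := by exact_mod_cast hj4
  have hT0 : (1 : ℝ) ≤ T := by exact_mod_cast hT1
  have hjT' : (j : ℝ) ^ 30 ≤ T := by exact_mod_cast hj1
  have hsb : (s : ℝ) ^ 2 ≤ (30 * 2 ^ 29) ^ 2 * (T : ℝ) ^ (58 / 30 : ℝ) := by
    apply s2_bound (j : ℝ) T s hx1 hjT' (Nat.cast_nonneg s)
    have h4 : (T : ℝ) ≤ (((j + 1) ^ 30 : ℕ) : ℝ) := Nat.cast_le.2 hj2.le
    rw [Nat.cast_pow, Nat.cast_add, Nat.cast_one] at h4
    have h3 : (T : ℝ) = (j : ℝ) ^ 30 + s := by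
      rw [hs, Nat.cast_add, Nat.cast_pow]
    rw [h3] at h4
    exact le_sub_iff_add_le'.2 h4
  have hg : 2 * Ex w (j ^ 30) (fun k => ((k : ℝ) - c) ^ 2) 0 ≤ 18 * (T : ℝ) ^ (1.985 : ℝ) := by
    have h1 : (((j ^ 30 : ℕ) : ℝ)) ^ (1.985 : ℝ) ≤ (T : ℝ) ^ (1.985 : ℝ) :=
      Real.rpow_le_rpow (Nat.cast_nonneg _) (Nat.cast_le.2 hj1) (by norm_num)
    clear hsb hj1 hj2 hjT' f1 f2 hsp f3
    linarith
  clear hc hj1 hj2 hjT' hsp f3
  linarith

end Q63.LV
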