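import Pool.Agent.Q63.LV.Hit

/-! Project LV (MP_545af4_pr, helper289), job REV (reversibility). -/

open Finset

namespace Q63.LV

open Q289.LV

theorem rev_sym (κ : ℝ) (w V : ℤ → ℝ) (hE : Env κ w V) (t : ℕ) : ∀ (a b : ℤ),
    (Real.exp (-V a) / w a) * Ex w t (one b) a = (Real.exp (-V b) / w b) * Ex w t (one a) b := by
  have hκ := hE.pos
  have hw0 : ∀ k, 0 < w k := fun k => lt_of_lt_of_le hκ (hE.lo k)
  have hpot : ∀ k, (Real.exp (-V (k + 1)) / w (k + 1)) * (1 - w (k + 1)) = Real.exp (-V k) := by
    intro k
    have h1 := hE.pot k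
    have h2 : 0 < 1 - w (k + 1) := by linarith [hE.hi (k + 1)]
    have h3 : Real.exp (V (k + 1) - V k) = (1 - w (k + 1)) / w (k + 1) := by
      rw [h1, Real.exp_log (div_pos h2 (hw0 _))]
    have h4 : Real.exp (-V k) = Real.exp (-V (k + 1)) * Real.exp (V (k + 1) - V k) := by
      rw [← Real.exp_add]; congr 1; ring
    rw [h4, h3]; ring
  have hpot2 : ∀ k, (Real.exp (-V k) / w k) * w k = Real.exp (-V k) := fun k => by
    have := (hw0 k).ne'
    field_simp
  induction t with
  | zero =>
    intro a b
    by_cases h : a = b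
    · rw [h]
    · have h' : ¬ b = a := fun h' => h h'.symm
      simp [Ex, one, h, h']
  | succ t ih =>
    intro a b
    have e1 : Ex w (t + 1) (one b) a = w (b - 1) * Ex w t (one (b - 1)) a +
        (1 - w (b + 1)) * Ex w t (one (b + 1)) a := by
      rw [H.h17 w (one b) t 1 a]
      have e2 : Ex w 1 (one b) = fun k => (fun k => 0 + w (b - 1) * one (b - 1) k) k +
          (1 - w (b + 1)) * one (b + 1) k := by
        funext k
        simp only [Ex, Pop, one]
        by_cases c1 : k + 1 = b
        · have c2 : k = b - 1 := by omega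
          have c3 : ¬ k - 1 = b := by omega
          have c4 : ¬ k = b + 1 := by omega
          simp only [c1, c3, c4, if_true, if_false]
          rw [if_pos c2, c2]; ring
        · by_cases c3 : k - 1 = b
          · have c2 : ¬ k = b - 1 := by omega
            have c4 : k = b + 1 := by omega
            simp only [c1, c3, c2, if_true, if_false]
            rw [if_pos c4, c4]; ring
          · have c2 : ¬ k = b - 1 := by omega
            have c4 : ¬ k = b + 1 := by omega
            simp only [c1, c3, c2, c4, if_false]; ring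
      rw [e2, H.h15, H.h15, H.h16]; ring
    have i1 := ih a (b - 1)
    have i2 := ih a (b + 1)
    have e3 : Ex w (t + 1) (one a) b = w b * Ex w t (one a) (b + 1) +
        (1 - w b) * Ex w t (one a) (b - 1) := rfl
    have p1 := hpot2 (b - 1)
    have p2 := hpot b
    have p3 := hpot2 b
    have p4 := hpot (b - 1)
    have e4 : b - 1 + 1 = b := by ring
    rw [e4] at p4
    rw [e1, e3]
    set A := Real.exp (-V a) / w a
    set B1 := Real.exp (-V (b - 1)) / w (b - 1)
    set B2 := Real.exp (-V (b + 1)) / w (b + 1)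
    set B := Real.exp (-V b) / w b
    calc A * (w (b - 1) * Ex w t (one (b - 1)) a + (1 - w (b + 1)) * Ex w t (one (b + 1)) a)
        = w (b - 1) * (A * Ex w t (one (b - 1)) a) +
          (1 - w (b + 1)) * (A * Ex w t (one (b + 1)) a) := by ring
      _ = w (b - 1) * (B1 * Ex w t (one a) (b - 1)) +
          (1 - w (b + 1)) * (B2 * Ex w t (one a) (b + 1)) := by rw [i1, i2]
      _ = (B1 * w (b - 1)) * Ex w t (one a) (b - 1) +
          (B2 * (1 - w (b + 1))) * Ex w t (one a) (b + 1) := by ring
      _ = (B * (1 - w b)) * Ex w t (one a) (b - 1) + (B * w b) * Ex w t (one a) (b + 1) := by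
          rw [p1, p2, p3, p4]
      _ = B * (w b * Ex w t (one a) (b + 1) + (1 - w b) * Ex w t (one a) (b - 1)) := by ring

theorem rev : S_Rev := by
  intro κ w V hE t a b
  have hκ := hE.pos
  have hw0 : ∀ k, 0 < w k := fun k => lt_of_lt_of_le hκ (hE.lo k)
  have hw : ∀ k, 0 ≤ w k ∧ w k ≤ 1 := fun k => by
    have h1 := hE.lo k
    have h2 := hE.hi k
    constructor <;> linarith
  have h1 := rev_sym κ w V hE t a b
  have h2 : Ex w t (one a) b ≤ 1 := by
    have := H.h14 w hw (one a) (fun _ => 1) t b (fun c _ _ => by unfold one; split_ifs <;> norm_num)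
    rwa [H.h16] at this
  have hA : 0 < Real.exp (-V a) / w a := div_pos (Real.exp_pos _) (hw0 a)
  have hB : 0 < Real.exp (-V b) / w b := div_pos (Real.exp_pos _) (hw0 b)
  have h3 : (Real.exp (-V a) / w a) * Ex w t (one b) a ≤ Real.exp (-V b) / w b := by
    rw [h1]
    nlinarith
  have h4 : Real.exp (-V b) / w b ≤ (Real.exp (-V a) / w a) * ((1 / κ) * Real.exp (V a - V b)) := by
    have e : (Real.exp (-V a) / w a) * ((1 / κ) * Real.exp (V a - V b)) =
        Real.exp (-V b) * (1 / (w a * κ)) := by
      have : Real.exp (-V b) = Real.exp (-V a) * Real.exp (V a - V b) := by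
        rw [← Real.exp_add]; congr 1; ring
      rw [this]
      have := (hw0 a).ne'
      field_simp
    rw [e, div_eq_mul_one_div]
    apply mul_le_mul_of_nonneg_left _ (Real.exp_pos _).le
    apply one_div_le_one_div_of_le (mul_pos (hw0 a) hκ)
    have h5 := (hw a).2
    have h6 := hE.lo b
    nlinarith
  exact le_of_mul_le_mul_left (h3.trans h4) hA

end Q63.LV
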